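import Mathlib
import Pool.Agent.MP_ffd2b5_nt.LS2

set_option autoImplicit false

/-! # Variance over residue classes, prime moduli (from the additive large sieve) -/

namespace Pool.Agent.MP_de0709_nt

open Finset
open Pool.Agent.MP_ffd2b5_nt (e farey_sieve)

/-- the sum of `a n`, `n < N`, over the residue class `h` modulo `p` -/
noncomputable def cls (N : ℕ) (a : ℕ → ℝ) (p h : ℕ) : ℝ :=
  ∑ n ∈ (range N).filter (fun n => n % p = h), a n

theorem e_add (s t : ℝ) : e (s + t) = e s * e t := by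
  unfold e
  rw [← Complex.exp_add]
  congr 1
  push_cast
  ring

theorem e_nat (k : ℕ) : e k = 1 := by
  unfold e
  have := Complex.exp_nat_mul_two_pi_mul_I k
  rw [← this]
  congr 1
  push_cast
  ring

theorem e_nat_mul (b : ℕ) (t : ℝ) : e (b * t) = e t ^ b := by
  unfold e
  rw [← Complex.exp_nat_mul]
  congr 1
  push_cast
  ring

theorem e_conj (t : ℝ) : (starRingEnd ℂ) (e t) = e (-t) := by
  unfold e
  rw [← Complex.exp_conj]
  congr 1
  rw [map_mul, map_mul, map_mul, Complex.conj_ofReal, Complex.conj_I, Complex.conj_ofReal]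
  have : (starRingEnd ℂ) (2 : ℂ) = 2 := by
    have := Complex.conj_ofReal 2
    simpa using this
  rw [this]
  push_cast
  ring

/-- `e(n b / p)` depends only on `n` mod `p` -/
theorem e_mod (p : ℕ) (hp : 0 < p) (n b : ℕ) :
    e (n * ((b : ℝ) / p)) = e ((n % p : ℕ) * ((b : ℝ) / p)) := by
  have hp0 : (p : ℝ) ≠ 0 := by positivity
  obtain ⟨k, hk⟩ : ∃ k, k = n / p := ⟨_, rfl⟩
  obtain ⟨r, hr⟩ : ∃ r, r = n % p := ⟨_, rfl⟩
  have h : (n : ℝ) = p * k + r := by
    rw [hk, hr]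
    exact_mod_cast (Nat.div_add_mod n p).symm
  rw [← hr, h]
  have h2 : ((p : ℝ) * k + r) * ((b : ℝ) / p) = ((k * b : ℕ) : ℝ) + r * ((b : ℝ) / p) := by
    push_cast
    field_simp
  rw [h2, e_add, e_nat, one_mul]

/-- grouping by residue classes -/
theorem sum_cls (N : ℕ) (a : ℕ → ℝ) (p : ℕ) (hp : 0 < p) (b : ℕ) :
    ∑ n ∈ range N, (a n : ℂ) * e (n * ((b : ℝ) / p))
      = ∑ h ∈ range p, (cls N a p h : ℂ) * e (h * ((b : ℝ) / p)) := by
  rw [← Finset.sum_fiberwise_of_maps_to (s := range N) (t := range p) (g := fun n => n % p)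
    (fun n _ => mem_range.mpr (Nat.mod_lt _ hp))]
  refine sum_congr rfl fun h _ => ?_
  unfold cls
  rw [Complex.ofReal_sum, sum_mul]
  refine sum_congr rfl fun n hn => ?_
  rw [mem_filter] at hn
  rw [e_mod p hp n b, hn.2]

theorem sum_cls_one (N : ℕ) (a : ℕ → ℝ) (p : ℕ) (hp : 0 < p) :
    ∑ h ∈ range p, cls N a p h = ∑ n ∈ range N, a n := by
  rw [← Finset.sum_fiberwise_of_maps_to (s := range N) (t := range p) (g := fun n => n % p)
    (fun n _ => mem_range.mpr (Nat.mod_lt _ hp))]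
  rfl

/-- orthogonality -/
theorem orth (p : ℕ) (hp : 0 < p) (h h' : ℕ) (hh : h < p) (hh' : h' < p) :
    ∑ b ∈ range p, e (h * ((b : ℝ) / p)) * (starRingEnd ℂ) (e (h' * ((b : ℝ) / p)))
      = if h = h' then (p : ℂ) else 0 := by
  have hp0 : (p : ℝ) ≠ 0 := by positivity
  obtain ⟨z, hz⟩ : ∃ z : ℂ, z = e (((h : ℝ) - h') / p) := ⟨_, rfl⟩
  have h1 : ∀ b : ℕ, e (h * ((b : ℝ) / p)) * (starRingEnd ℂ) (e (h' * ((b : ℝ) / p))) = z ^ b := by
    intro b
    rw [e_conj, ← e_add, hz, ← e_nat_mul]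
    congr 1
    field_simp
    ring
  simp_rw [h1]
  by_cases heq : h = h'
  · rw [if_pos heq]
    have : z = 1 := by
      rw [hz, heq, sub_self, zero_div]
      have := e_nat 0
      simpa using this
    rw [this]
    simp
  · rw [if_neg heq]
    have hzp : z ^ p = 1 := by
      rw [hz, ← e_nat_mul]
      have h2 : (p : ℝ) * (((h : ℝ) - h') / p) = (h : ℝ) + -(h' : ℝ) := by field_simp; ring
      rw [h2, e_add, ← e_conj, e_nat, e_nat]
      simp
    have hz1 : z ≠ 1 := by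
      intro hz1
      rw [hz] at hz1
      unfold e at hz1
      rw [Complex.exp_eq_one_iff] at hz1
      obtain ⟨m, hm⟩ := hz1
      have h3 : ((((h : ℝ) - h') / p : ℝ) : ℂ) = (m : ℂ) := by
        have h4 : (2 * Real.pi * Complex.I : ℂ) ≠ 0 := Complex.two_pi_I_ne_zero
        apply mul_left_cancel₀ h4
        rw [hm]
        ring
      have h5 : (((h : ℝ) - h') / p : ℝ) = (m : ℝ) := by exact_mod_cast h3
      rw [div_eq_iff hp0] at h5
      have h6 : (h : ℤ) - h' = m * p := by exact_mod_cast h5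
      have h7 : (p : ℤ) ∣ (h : ℤ) - h' := ⟨m, by rw [h6]; ring⟩
      have h8 : (h : ℤ) - h' = 0 := Int.eq_zero_of_abs_lt_dvd h7 (by rw [abs_lt]; omega)
      omega
    have h9 := mul_neg_geom_sum z p
    rw [hzp, sub_self] at h9
    rcases mul_eq_zero.mp h9 with h10 | h10
    · exact absurd (sub_eq_zero.mp h10).symm hz1
    · exact h10

/-- Parseval -/
theorem parseval (p : ℕ) (hp : 0 < p) (f : ℕ → ℝ) :
    ∑ b ∈ range p, ‖∑ h ∈ range p, (f h : ℂ) * e (h * ((b : ℝ) / p))‖ ^ 2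
      = p * ∑ h ∈ range p, f h ^ 2 := by
  have h1 : ((∑ b ∈ range p, ‖∑ h ∈ range p, (f h : ℂ) * e (h * ((b : ℝ) / p))‖ ^ 2 : ℝ) : ℂ)
      = ((p * ∑ h ∈ range p, f h ^ 2 : ℝ) : ℂ) := by
    rw [Complex.ofReal_sum]
    have h2 : ∀ b : ℕ, ((‖∑ h ∈ range p, (f h : ℂ) * e (h * ((b : ℝ) / p))‖ ^ 2 : ℝ) : ℂ)
        = ∑ h ∈ range p, ∑ h' ∈ range p, (f h : ℂ) * (f h' : ℂ) *
          (e (h * ((b : ℝ) / p)) * (starRingEnd ℂ) (e (h' * ((b : ℝ) / p)))) := by
      intro b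
      rw [← Complex.normSq_eq_norm_sq, ← Complex.mul_conj, map_sum, sum_mul_sum]
      refine sum_congr rfl fun h _ => sum_congr rfl fun h' _ => ?_
      rw [map_mul, Complex.conj_ofReal]
      ring
    simp_rw [h2]
    rw [sum_comm]
    have h3 : ∀ h ∈ range p, ∑ b ∈ range p, ∑ h' ∈ range p, (f h : ℂ) * (f h' : ℂ) *
          (e (h * ((b : ℝ) / p)) * (starRingEnd ℂ) (e (h' * ((b : ℝ) / p))))
        = p * (f h : ℂ) ^ 2 := by
      intro h hh
      rw [sum_comm]
      have h4 : ∀ h' ∈ range p, ∑ b ∈ range p, (f h : ℂ) * (f h' : ℂ) *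
          (e (h * ((b : ℝ) / p)) * (starRingEnd ℂ) (e (h' * ((b : ℝ) / p))))
          = if h = h' then (p : ℂ) * (f h : ℂ) ^ 2 else 0 := by
        intro h' hh'
        rw [← mul_sum, orth p hp h h' (mem_range.mp hh) (mem_range.mp hh')]
        split_ifs with heq
        · subst heq; ring
        · ring
      rw [sum_congr rfl h4, sum_ite_eq, if_pos hh]
    rw [sum_congr rfl h3, ← mul_sum]
    push_cast
    rfl
  exact_mod_cast h1

/-- one prime: the variance over all residue classes -/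
theorem variance (p : ℕ) (hp : 0 < p) (N : ℕ) (a : ℕ → ℝ) :
    ∑ b ∈ Icc 1 (p - 1), ‖∑ n ∈ range N, (a n : ℂ) * e (n * ((b : ℝ) / p))‖ ^ 2
      = p * ∑ h ∈ range p, (cls N a p h - (∑ n ∈ range N, a n) / p) ^ 2 := by
  have hp0 : (p : ℝ) ≠ 0 := by positivity
  have h1 := parseval p hp (cls N a p)
  have h2 : ∀ b : ℕ, ∑ h ∈ range p, (cls N a p h : ℂ) * e (h * ((b : ℝ) / p))
      = ∑ n ∈ range N, (a n : ℂ) * e (n * ((b : ℝ) / p)) := fun b => (sum_cls N a p hp b).symm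
  simp_rw [h2] at h1
  have hsplit : range p = insert 0 (Icc 1 (p - 1)) := by
    ext x
    simp only [mem_range, mem_insert, mem_Icc]
    omega
  have h3 : ∑ b ∈ range p, ‖∑ n ∈ range N, (a n : ℂ) * e (n * ((b : ℝ) / p))‖ ^ 2
      = (∑ n ∈ range N, a n) ^ 2
        + ∑ b ∈ Icc 1 (p - 1), ‖∑ n ∈ range N, (a n : ℂ) * e (n * ((b : ℝ) / p))‖ ^ 2 := by
    rw [hsplit, sum_insert (by simp)]
    congr 1
    have h4 : ∀ n ∈ range N, (a n : ℂ) * e (n * (((0 : ℕ) : ℝ) / p)) = (a n : ℂ) := by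
      intro n _
      have := e_nat 0
      simp only [Nat.cast_zero] at this
      simp [this]
    rw [sum_congr rfl h4, ← Complex.ofReal_sum, Complex.norm_real, Real.norm_eq_abs, sq_abs]
  rw [h3] at h1
  have h5 := sum_cls_one N a p hp
  have h6 : ∑ h ∈ range p, (cls N a p h - (∑ n ∈ range N, a n) / p) ^ 2
      = ∑ h ∈ range p, cls N a p h ^ 2 - (∑ n ∈ range N, a n) ^ 2 / p := by
    have h7 : ∀ h ∈ range p, (cls N a p h - (∑ n ∈ range N, a n) / p) ^ 2
        = cls N a p h ^ 2 - 2 * ((∑ n ∈ range N, a n) / p) * cls N a p h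
          + ((∑ n ∈ range N, a n) / p) ^ 2 := by
      intro h _; ring
    rw [sum_congr rfl h7, sum_add_distrib, sum_sub_distrib, ← mul_sum, h5, sum_const, card_range,
      nsmul_eq_mul]
    field_simp
    ring
  rw [h6, mul_sub, mul_div_cancel₀ _ hp0]
  linarith

/-- **Variance bound for prime moduli** -/
theorem variance_sum (x N : ℕ) (hx : 1 ≤ x) (a : ℕ → ℝ) :
    ∑ p ∈ Nat.primesLE x, (p : ℝ) *
        ∑ h ∈ range p, (cls N a p h - (∑ n ∈ range N, a n) / p) ^ 2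
      ≤ 32 * (N + (x : ℝ) ^ 2) * ∑ n ∈ range N, a n ^ 2 := by
  have h := farey_sieve x N hx fun n => (a n : ℂ)
  have h1 : ∑ n ∈ range N, ‖(a n : ℂ)‖ ^ 2 = ∑ n ∈ range N, a n ^ 2 := by
    refine sum_congr rfl fun n _ => ?_
    rw [Complex.norm_real, Real.norm_eq_abs, sq_abs]
  rw [h1] at h
  refine le_trans (le_of_eq ?_) h
  refine sum_congr rfl fun p hp => ?_
  exact (variance p (Nat.mem_primesLE.mp hp).2.pos N a).symm

end Pool.Agent.MP_de0709_nt
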