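import Mathlib
import Pool.Agent.MP_de0709_nt.V

set_option autoImplicit false

/-! # Counting exceptional residue classes -/

namespace Pool.Agent.MP_de0709_nt

open Finset

/-- the primes in `(X, 2X]` -/
def dy (X : ℕ) : Finset ℕ := (Ioc X (2 * X)).filter Nat.Prime

/-- number of the `i ∈ S` with `φ i` in the class `x` mod `p` -/
def cnt {ι : Type*} (S : Finset ι) (φ : ι → ℕ) (p x : ℕ) : ℕ :=
  (S.filter fun i => φ i % p = x).card

/-- **Exceptional classes, general form.** -/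
theorem bad_gen {ι : Type*} (S : Finset ι) (φ : ι → ℕ) (N X M : ℕ) (hX : 1 ≤ X)
    (hN : ∀ i ∈ S, φ i < N) (hM : ∀ n, (S.filter fun i => φ i = n).card ≤ M) (η : ℝ) (hη : 0 < η) :
    ((∑ p ∈ dy X, ((range p).filter fun x =>
        η * (S.card / p) ≤ |(cnt S φ p x : ℝ) - S.card / p|).card : ℕ) : ℝ)
        * (η ^ 2 * (S.card : ℝ) ^ 2 / (2 * X))
      ≤ 32 * (N + 4 * (X : ℝ) ^ 2) * (M * S.card) := by
  classical
  have hX0 : (0 : ℝ) < X := by exact_mod_cast hX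
  obtain ⟨a, ha⟩ : ∃ a : ℕ → ℝ, a = fun n => ((S.filter fun i => φ i = n).card : ℝ) := ⟨_, rfl⟩
  have hsum : ∀ T : Finset ℕ, ∑ n ∈ T, a n = ((S.filter fun i => φ i ∈ T).card : ℝ) := by
    intro T
    have h1 : (S.filter fun i => φ i ∈ T).card
        = ∑ n ∈ T, ((S.filter fun i => φ i ∈ T).filter fun i => φ i = n).card :=
      card_eq_sum_card_fiberwise (fun i hi => (mem_filter.mp hi).2)
    rw [h1]
    push_cast
    rw [ha]
    refine sum_congr rfl fun n hn => ?_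
    simp only
    congr 2
    ext i
    simp only [mem_filter]
    constructor
    · rintro ⟨h2, h3⟩; exact ⟨⟨h2, by rw [h3]; exact hn⟩, h3⟩
    · rintro ⟨⟨h2, _⟩, h3⟩; exact ⟨h2, h3⟩
  have htot : ∑ n ∈ range N, a n = S.card := by
    rw [hsum]
    congr 2
    rw [filter_eq_self]
    exact fun i hi => mem_range.mpr (hN i hi)
  have hcls : ∀ p h, cls N a p h = cnt S φ p h := by
    intro p h
    unfold cls cnt
    rw [hsum]
    congr 2
    ext i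
    simp only [mem_filter, mem_range]
    constructor
    · rintro ⟨h1, _, h2⟩; exact ⟨h1, h2⟩
    · rintro ⟨h1, h2⟩; exact ⟨h1, hN i h1, h2⟩
  have hsq : ∑ n ∈ range N, a n ^ 2 ≤ M * S.card := by
    rw [← htot, mul_sum]
    refine sum_le_sum fun n _ => ?_
    rw [sq]
    have h1 : a n ≤ M := by rw [ha]; simp only; exact_mod_cast hM n
    have h2 : 0 ≤ a n := by rw [ha]; simp only; positivity
    exact mul_le_mul_of_nonneg_right h1 h2
  have hv := variance_sum (2 * X) N (by omega) a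
  have hv2 : ∑ p ∈ dy X, (p : ℝ) *
        ∑ h ∈ range p, (cls N a p h - (∑ n ∈ range N, a n) / p) ^ 2
      ≤ ∑ p ∈ Nat.primesLE (2 * X), (p : ℝ) *
        ∑ h ∈ range p, (cls N a p h - (∑ n ∈ range N, a n) / p) ^ 2 := by
    apply sum_le_sum_of_subset_of_nonneg
    · intro p hp
      unfold dy at hp
      rw [mem_filter, mem_Ioc] at hp
      rw [Nat.mem_primesLE]
      exact ⟨hp.1.2, hp.2⟩
    · intro p _ _
      exact mul_nonneg (Nat.cast_nonneg _) (sum_nonneg fun _ _ => sq_nonneg _)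
  have hlow : ((∑ p ∈ dy X, ((range p).filter fun x =>
        η * (S.card / p) ≤ |(cnt S φ p x : ℝ) - S.card / p|).card : ℕ) : ℝ)
        * (η ^ 2 * (S.card : ℝ) ^ 2 / (2 * X)) ≤ ∑ p ∈ dy X, (p : ℝ) *
        ∑ h ∈ range p, (cls N a p h - (∑ n ∈ range N, a n) / p) ^ 2 := by
    rw [Nat.cast_sum, sum_mul]
    refine sum_le_sum fun p hp => ?_
    unfold dy at hp
    rw [mem_filter, mem_Ioc] at hp
    have hp0 : (0 : ℝ) < p := by exact_mod_cast hp.2.pos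
    have hp2 : (p : ℝ) ≤ 2 * X := by exact_mod_cast hp.1.2
    rw [htot, mul_sum, ← nsmul_eq_mul, ← sum_const]
    refine le_trans (sum_le_sum (g := fun h => (p : ℝ) * (cls N a p h - S.card / p) ^ 2) ?_)
      (sum_le_sum_of_subset_of_nonneg (filter_subset _ _)
        fun _ _ _ => mul_nonneg hp0.le (sq_nonneg _))
    intro h hh
    rw [mem_filter] at hh
    rw [hcls]
    have h1 : (η * (S.card / p)) ^ 2 ≤ ((cnt S φ p h : ℝ) - S.card / p) ^ 2 := by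
      rw [← sq_abs ((cnt S φ p h : ℝ) - S.card / p)]
      exact pow_le_pow_left₀ (by positivity) hh.2 2
    calc η ^ 2 * (S.card : ℝ) ^ 2 / (2 * X) ≤ η ^ 2 * (S.card : ℝ) ^ 2 / p :=
          div_le_div_of_nonneg_left (by positivity) hp0 hp2
      _ = p * (η * (S.card / p)) ^ 2 := by field_simp
      _ ≤ p * ((cnt S φ p h : ℝ) - S.card / p) ^ 2 := mul_le_mul_of_nonneg_left h1 hp0.le
  refine hlow.trans (hv2.trans (hv.trans ?_))
  push_cast
  have h4 : (0 : ℝ) ≤ 32 * (N + 4 * (X : ℝ) ^ 2) := by positivity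
  calc 32 * ((N : ℝ) + (2 * (X : ℝ)) ^ 2) * ∑ n ∈ range N, a n ^ 2
      = 32 * (N + 4 * (X : ℝ) ^ 2) * ∑ n ∈ range N, a n ^ 2 := by ring
    _ ≤ _ := mul_le_mul_of_nonneg_left hsq h4

/-- number of pairs `(q₁, q₂) ∈ Q₁ × Q₂` with `q₁ q₂` in the class `x` mod `p` -/
def rep2 (Q₁ Q₂ : Finset ℕ) (p x : ℕ) : ℕ :=
  ((Q₁ ×ˢ Q₂).filter fun q => q.1 * q.2 % p = x).card

theorem fiber_two (Q₁ Q₂ : Finset ℕ) (hQ₁ : ∀ q ∈ Q₁, q.Prime) (hQ₂ : ∀ q ∈ Q₂, q.Prime) (n : ℕ) :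
    ((Q₁ ×ˢ Q₂).filter fun q => q.1 * q.2 = n).card ≤ 2 := by
  classical
  by_cases hne : ((Q₁ ×ˢ Q₂).filter fun q => q.1 * q.2 = n).Nonempty
  · obtain ⟨⟨u, v⟩, huv⟩ := hne
    rw [mem_filter, mem_product] at huv
    obtain ⟨⟨hu, hv⟩, hn⟩ := huv
    simp only at hu hv hn
    have hsub : ((Q₁ ×ˢ Q₂).filter fun q => q.1 * q.2 = n) ⊆ {(u, v), (v, u)} := by
      rintro ⟨r, s⟩ hrs
      rw [mem_filter, mem_product] at hrs
      obtain ⟨⟨hr, hs⟩, hn'⟩ := hrs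
      simp only at hr hs hn'
      rw [mem_insert, mem_singleton, Prod.mk.injEq, Prod.mk.injEq]
      have h1 : r ∣ u * v := by rw [hn, ← hn']; exact dvd_mul_right _ _
      have hu' := hQ₁ u hu
      have hv' := hQ₂ v hv
      have hr' := hQ₁ r hr
      rcases (Nat.Prime.dvd_mul hr').mp h1 with h2 | h2
      · have h3 : r = u := (Nat.prime_dvd_prime_iff_eq hr' hu').mp h2
        subst h3
        left
        refine ⟨rfl, ?_⟩
        exact Nat.eq_of_mul_eq_mul_left hr'.pos (by rw [hn', hn])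
      · have h3 : r = v := (Nat.prime_dvd_prime_iff_eq hr' hv').mp h2
        subst h3
        right
        refine ⟨rfl, ?_⟩
        exact Nat.eq_of_mul_eq_mul_left hr'.pos (by rw [hn', ← hn]; ring)
    exact (card_le_card hsub).trans card_le_two
  · rw [not_nonempty_iff_eq_empty] at hne
    rw [hne]; simp

/-- **Products of an element of `Q₁` and an element of `Q₂`, sets of primes up to `2X`.** -/
theorem bad_pair2 (X : ℕ) (hX : 1 ≤ X) (Q₁ Q₂ : Finset ℕ) (hQ₁ : ∀ q ∈ Q₁, q.Prime ∧ q ≤ 2 * X)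
    (hQ₂ : ∀ q ∈ Q₂, q.Prime ∧ q ≤ 2 * X) (hne₁ : Q₁.Nonempty) (hne₂ : Q₂.Nonempty)
    (η : ℝ) (hη : 0 < η) :
    ((∑ p ∈ dy X, ((range p).filter fun x =>
        η * ((Q₁.card : ℝ) * Q₂.card / p) ≤
          |(rep2 Q₁ Q₂ p x : ℝ) - (Q₁.card : ℝ) * Q₂.card / p|).card : ℕ) : ℝ)
      ≤ 1152 * (X : ℝ) ^ 3 / (η ^ 2 * ((Q₁.card : ℝ) * Q₂.card)) := by
  have hX0 : (1 : ℝ) ≤ X := by exact_mod_cast hX
  obtain ⟨k, hkdef⟩ : ∃ k : ℝ, k = (Q₁.card : ℝ) * Q₂.card := ⟨_, rfl⟩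
  have hk : (0 : ℝ) < k := by
    have h1 : (0 : ℝ) < Q₁.card := by exact_mod_cast hne₁.card_pos
    have h2 : (0 : ℝ) < Q₂.card := by exact_mod_cast hne₂.card_pos
    rw [hkdef]
    exact mul_pos h1 h2
  have h := bad_gen (Q₁ ×ˢ Q₂) (fun q => q.1 * q.2) (4 * X ^ 2 + 1) X 2 hX
    (by
      intro q hq
      rw [mem_product] at hq
      have h1 := (hQ₁ _ hq.1).2
      have h2 := (hQ₂ _ hq.2).2
      have := Nat.mul_le_mul h1 h2
      nlinarith)
    (fiber_two Q₁ Q₂ (fun q hq => (hQ₁ q hq).1) (fun q hq => (hQ₂ q hq).1)) η hη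
  have hcard : ((Q₁ ×ˢ Q₂).card : ℝ) = k := by
    rw [card_product, hkdef]; push_cast; ring
  rw [hcard] at h
  have hrep : ∀ p x, cnt (Q₁ ×ˢ Q₂) (fun q => q.1 * q.2) p x = rep2 Q₁ Q₂ p x := fun _ _ => rfl
  simp only [hrep] at h
  rw [← hkdef]
  rw [le_div_iff₀ (by positivity)]
  obtain ⟨B, hB⟩ : ∃ B : ℝ, B = ((∑ p ∈ dy X, ((range p).filter fun x =>
        η * (k / p) ≤ |(rep2 Q₁ Q₂ p x : ℝ) - k / p|).card : ℕ) : ℝ) :=
    ⟨_, rfl⟩
  rw [← hB] at h ⊢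
  have h3 : B * (η ^ 2 * k ^ 2 / (2 * X)) * (2 * X)
      ≤ 32 * (((4 * X ^ 2 + 1 : ℕ) : ℝ) + 4 * (X : ℝ) ^ 2) * ((2 : ℕ) * k) * (2 * X) :=
    mul_le_mul_of_nonneg_right h (by positivity)
  have h4 : B * (η ^ 2 * k ^ 2 / (2 * X)) * (2 * X) = (B * (η ^ 2 * k)) * k := by
    field_simp
  rw [h4] at h3
  have h5 : 32 * (((4 * X ^ 2 + 1 : ℕ) : ℝ) + 4 * (X : ℝ) ^ 2) * ((2 : ℕ) * k) * (2 * X)
      ≤ (1152 * (X : ℝ) ^ 3) * k := by
    push_cast
    have h6 : (4 * (X : ℝ) ^ 2 + 1 + 4 * (X : ℝ) ^ 2) ≤ 9 * (X : ℝ) ^ 2 := by nlinarith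
    have h7 : (0 : ℝ) ≤ 128 * k * X := by positivity
    nlinarith [mul_le_mul_of_nonneg_left h6 h7]
  exact le_of_mul_le_mul_right (h3.trans h5) (by positivity)

/-- number of ordered pairs of elements of `Q` whose product is in the class `x` mod `p` -/
def rep (Q : Finset ℕ) (p x : ℕ) : ℕ := rep2 Q Q p x

/-- **Products of two elements of a set of primes.** -/
theorem bad_pair (X : ℕ) (hX : 1 ≤ X) (Q : Finset ℕ) (hQ : ∀ q ∈ Q, q.Prime ∧ q ≤ 2 * X)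
    (hne : Q.Nonempty) (η : ℝ) (hη : 0 < η) :
    ((∑ p ∈ dy X, ((range p).filter fun x =>
        η * ((Q.card : ℝ) ^ 2 / p) ≤ |(rep Q p x : ℝ) - (Q.card : ℝ) ^ 2 / p|).card : ℕ) : ℝ)
      ≤ 1152 * (X : ℝ) ^ 3 / (η ^ 2 * (Q.card : ℝ) ^ 2) := by
  have h := bad_pair2 X hX Q Q hQ hQ hne hne η hη
  unfold rep
  rw [sq (Q.card : ℝ)]
  exact h

end Pool.Agent.MP_de0709_nt
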