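import Mathlib

set_option autoImplicit false

/-! # Chebyshev bounds in the form needed -/

namespace Pool.Agent.MP_de0709_nt

open Finset

theorem ch_aux (n : ℕ) (hn : 2 ≤ n) : (n : ℝ) / 8 ≤ n * Real.log 2 - Real.log (n + 1) := by
  induction n, hn using Nat.le_induction with
  | base =>
    have h1 : Real.log ((4 : ℝ) / 3) = 2 * Real.log 2 - Real.log 3 := by
      rw [Real.log_div (by norm_num) (by norm_num)]
      have : (4 : ℝ) = 2 ^ 2 := by norm_num
      rw [this, Real.log_pow]
      norm_num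
    have h2 : (1 : ℝ) / 4 ≤ Real.log (4 / 3) := by
      rw [Real.le_log_iff_exp_le (by norm_num)]
      have h3 : Real.exp (1 / 4 : ℝ) ^ 4 = Real.exp 1 := by
        rw [← Real.exp_nat_mul]; norm_num
      have h4 : Real.exp 1 < 2.7182818286 := Real.exp_one_lt_d9
      by_contra hc
      push Not at hc
      have h5 : ((4 : ℝ) / 3) ^ 4 < Real.exp (1 / 4 : ℝ) ^ 4 :=
        pow_lt_pow_left₀ hc (by norm_num) (by norm_num)
      rw [h3] at h5
      norm_num at h5
      linarith
    norm_num at h1 h2 ⊢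
    rw [h1] at h2
    linarith
  | succ n hn ih =>
    have hn0 : (2 : ℝ) ≤ n := by exact_mod_cast hn
    have h1 : Real.log ((n : ℝ) + 1 + 1) ≤ Real.log (n + 1) + 1 / (n + 1) := by
      have h2 : Real.log (((n : ℝ) + 1 + 1) / (n + 1)) ≤ ((n : ℝ) + 1 + 1) / (n + 1) - 1 :=
        Real.log_le_sub_one_of_pos (by positivity)
      rw [Real.log_div (by positivity) (by positivity)] at h2
      have h3 : ((n : ℝ) + 1 + 1) / (n + 1) - 1 = 1 / (n + 1) := by field_simp; ring
      linarith
    have h4 : (1 : ℝ) / (n + 1) ≤ 1 / 3 := by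
      apply one_div_le_one_div_of_le (by norm_num); linarith
    have h5 : (0.6931471803 : ℝ) < Real.log 2 := Real.log_two_gt_d9
    push_cast
    nlinarith

/-- Chebyshev's lower bound -/
theorem pi_lower (X : ℕ) (hX : 2 ≤ X) :
    (X : ℝ) / (8 * Real.log X) ≤ ((Nat.primesLE X).card : ℝ) := by
  have hX0 : (2 : ℝ) ≤ X := by exact_mod_cast hX
  have hlog : 0 < Real.log X := Real.log_pos (by linarith)
  rw [Nat.primesLE_card_eq_primeCounting]
  refine le_trans ?_ (Chebyshev.pi_ge X)
  have h := ch_aux X hX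
  rw [div_le_div_iff₀ (by positivity) hlog]
  nlinarith

/-- Chebyshev's upper bound -/
theorem pi_upper (X : ℕ) (hX : 2 ≤ X) :
    ((Nat.primesLE (2 * X)).card : ℝ) ≤ 10 * X / Real.log X := by
  have hX0 : (2 : ℝ) ≤ X := by exact_mod_cast hX
  have hlog : 0 < Real.log X := Real.log_pos (by linarith)
  rw [Nat.primesLE_card_eq_primeCounting]
  have h := Chebyshev.pi_le_log4_mul_div (x := 2 * (X : ℝ)) (by linarith)
  have hfl : ⌊2 * (X : ℝ)⌋₊ = 2 * X := by
    have : (2 * (X : ℝ)) = ((2 * X : ℕ) : ℝ) := by push_cast; ring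
    rw [this, Nat.floor_natCast]
  rw [hfl] at h
  obtain ⟨x, hx⟩ : ∃ x : ℝ, x = 2 * (X : ℝ) := ⟨_, rfl⟩
  rw [← hx] at h
  have hx4 : 4 ≤ x := by rw [hx]; linarith
  have hx0 : 0 < x := by linarith
  have hlx : Real.log X ≤ Real.log x := Real.log_le_log (by linarith) (by rw [hx]; linarith)
  have hlx0 : 0 < Real.log x := lt_of_lt_of_le hlog hlx
  have hs0 : 0 < √x := Real.sqrt_pos.mpr hx0
  have hss : √x * √x = x := Real.mul_self_sqrt hx0.le
  have hls : Real.log √x = Real.log x / 2 := Real.log_sqrt hx0.le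
  have h1 : Real.log √x ≤ √x - 1 := Real.log_le_sub_one_of_pos hs0
  have h2 : √x ≤ 2 * x / Real.log x := by
    rw [le_div_iff₀ hlx0]
    rw [hls] at h1
    nlinarith
  have h4 : Real.log 4 ≤ 1.4 := by
    have : (4 : ℝ) = 2 ^ 2 := by norm_num
    rw [this, Real.log_pow]
    have := Real.log_two_lt_d9
    push_cast
    linarith
  have h5 : Real.log 4 * x / Real.log √x ≤ 2.8 * x / Real.log x := by
    rw [hls, div_div_eq_mul_div]
    apply div_le_div_of_nonneg_right _ hlx0.le
    nlinarith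
  have h6 : 2.8 * x / Real.log x + 2 * x / Real.log x = 4.8 * x / Real.log x := by
    rw [← add_div]; congr 1; ring
  calc ((Nat.primeCounting (2 * X) : ℕ) : ℝ) ≤ 4.8 * x / Real.log x := by linarith
    _ ≤ 4.8 * x / Real.log X := div_le_div_of_nonneg_left (by positivity) hlog hlx
    _ ≤ 10 * X / Real.log X := by
        apply div_le_div_of_nonneg_right _ hlog.le
        rw [hx]; nlinarith

/-- `π(2X) ≤ 80 π(X)` -/
theorem pi_double (X : ℕ) (hX : 2 ≤ X) :
    ((Nat.primesLE (2 * X)).card : ℝ) ≤ 80 * ((Nat.primesLE X).card : ℝ) := by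
  have hX0 : (2 : ℝ) ≤ X := by exact_mod_cast hX
  have hlog : 0 < Real.log X := Real.log_pos (by linarith)
  have h1 := pi_lower X hX
  have h2 := pi_upper X hX
  have h3 : 10 * (X : ℝ) / Real.log X = 80 * (X / (8 * Real.log X)) := by
    field_simp; ring
  rw [h3] at h2
  linarith

end Pool.Agent.MP_de0709_nt
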