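import Mathlib

set_option autoImplicit false

/-! # Definitions used in the statements -/

namespace Pool.Agent.MP_de0709_nt

open Finset

open Classical in
/-- the elements of `𝒬` that are smaller than `n` -/
noncomputable def below (𝒬 : Set ℕ) (n : ℕ) : Finset ℕ := (range n).filter fun q => q ∈ 𝒬

/-- the number of ordered pairs `(q₁, q₂)` of elements of `𝒬` smaller than `p` with
`q₁ q₂ ≡ x (mod p)` -/
noncomputable def R (𝒬 : Set ℕ) (p x : ℕ) : ℕ :=
  ((below 𝒬 p ×ˢ below 𝒬 p).filter fun q => q.1 * q.2 ≡ x [MOD p]).card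

/-- the expected number `c² / p` of such pairs, `c` being the number of elements of `𝒬` smaller
than `p` -/
noncomputable def ev (𝒬 : Set ℕ) (p : ℕ) : ℝ := ((below 𝒬 p).card : ℝ) ^ 2 / p

end Pool.Agent.MP_de0709_nt
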