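import Mathlib
import Pool.Agent.MP_de0709_nt.Defs
import Pool.Agent.MP_de0709_nt.B
import Pool.Agent.MP_de0709_nt.Cheb

set_option autoImplicit false

/-! # The number of representations by elements of `𝒬` below `p` -/

namespace Pool.Agent.MP_de0709_nt

open Finset

theorem mem_below (𝒬 : Set ℕ) (n q : ℕ) : q ∈ below 𝒬 n ↔ q < n ∧ q ∈ 𝒬 := by
  classical
  unfold below
  rw [mem_filter, mem_range]

theorem below_mono (𝒬 : Set ℕ) {m n : ℕ} (h : m ≤ n) : below 𝒬 m ⊆ below 𝒬 n := by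
  intro q hq
  rw [mem_below] at hq ⊢
  exact ⟨hq.1.trans_le h, hq.2⟩

theorem below_le_primes (𝒬 : Set ℕ) (h𝒬 : ∀ q ∈ 𝒬, q.Prime) (n : ℕ) :
    (below 𝒬 (n + 1)).card ≤ (Nat.primesLE n).card := by
  apply card_le_card
  intro q hq
  rw [mem_below] at hq
  rw [Nat.mem_primesLE]
  exact ⟨by omega, h𝒬 q hq.2⟩

theorem R_eq (𝒬 : Set ℕ) (p x : ℕ) (hx : x < p) : R 𝒬 p x = rep (below 𝒬 p) p x := by
  unfold R rep rep2
  congr 1
  apply filter_congr
  intro q _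
  rw [Nat.ModEq, Nat.mod_eq_of_lt hx]

theorem rep_mono {Q Q' : Finset ℕ} (h : Q ⊆ Q') (p x : ℕ) : rep Q p x ≤ rep Q' p x := by
  unfold rep rep2
  apply card_le_card
  apply filter_subset_filter
  exact product_subset_product h h

/-- the sandwich -/
theorem sandwich (η k m K p r1 r r2 : ℝ) (hη : 0 < η) (hη1 : η ≤ 1) (hk : 0 < k) (hkm : k ≤ m)
    (hmK : m ≤ K) (hKk : K ≤ (1 + η / 4) * k) (hp : 0 < p) (h1 : r1 ≤ r) (h2 : r ≤ r2)
    (hr1 : |r1 - k ^ 2 / p| < η / 4 * (k ^ 2 / p)) (hr2 : |r2 - K ^ 2 / p| < η / 4 * (K ^ 2 / p)) :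
    |r - m ^ 2 / p| < η * (m ^ 2 / p) := by
  rw [abs_lt] at hr1 hr2 ⊢
  have hm : 0 < m := lt_of_lt_of_le hk hkm
  have e1 : (1 - η) * m ^ 2 ≤ (1 - η / 4) * k ^ 2 := by
    have h3 : m ≤ (1 + η / 4) * k := hmK.trans hKk
    have h4 : m ^ 2 ≤ ((1 + η / 4) * k) ^ 2 := pow_le_pow_left₀ hm.le h3 2
    have h5 : (1 - η) * (1 + η / 4) ^ 2 ≤ 1 - η / 4 := by
      nlinarith [mul_nonneg hη.le (sub_nonneg.mpr hη1), mul_nonneg hη.le hη.le,
        mul_nonneg (mul_nonneg hη.le hη.le) hη.le]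
    calc (1 - η) * m ^ 2 ≤ (1 - η) * ((1 + η / 4) * k) ^ 2 :=
          mul_le_mul_of_nonneg_left h4 (by linarith)
      _ = (1 - η) * (1 + η / 4) ^ 2 * k ^ 2 := by ring
      _ ≤ _ := mul_le_mul_of_nonneg_right h5 (sq_nonneg _)
  have e2 : (1 + η / 4) * K ^ 2 ≤ (1 + η) * m ^ 2 := by
    have h3 : K ≤ (1 + η / 4) * m := hKk.trans (mul_le_mul_of_nonneg_left hkm (by linarith))
    have h4 : K ^ 2 ≤ ((1 + η / 4) * m) ^ 2 := pow_le_pow_left₀ (by linarith) h3 2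
    have h5 : (1 + η / 4) * (1 + η / 4) ^ 2 ≤ 1 + η := by
      nlinarith [mul_nonneg hη.le (sub_nonneg.mpr hη1), mul_nonneg hη.le hη.le,
        mul_nonneg (mul_nonneg hη.le hη.le) (sub_nonneg.mpr hη1)]
    calc (1 + η / 4) * K ^ 2 ≤ (1 + η / 4) * ((1 + η / 4) * m) ^ 2 :=
          mul_le_mul_of_nonneg_left h4 (by linarith)
      _ = (1 + η / 4) * (1 + η / 4) ^ 2 * m ^ 2 := by ring
      _ ≤ _ := mul_le_mul_of_nonneg_right h5 (sq_nonneg _)
  have e1' : (1 - η) * (m ^ 2 / p) ≤ (1 - η / 4) * (k ^ 2 / p) := by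
    have := div_le_div_of_nonneg_right e1 hp.le
    calc (1 - η) * (m ^ 2 / p) = (1 - η) * m ^ 2 / p := by ring
      _ ≤ (1 - η / 4) * k ^ 2 / p := this
      _ = _ := by ring
  have e2' : (1 + η / 4) * (K ^ 2 / p) ≤ (1 + η) * (m ^ 2 / p) := by
    have := div_le_div_of_nonneg_right e2 hp.le
    calc (1 + η / 4) * (K ^ 2 / p) = (1 + η / 4) * K ^ 2 / p := by ring
      _ ≤ (1 + η) * m ^ 2 / p := this
      _ = _ := by ring
  constructor <;> linarith [hr1.1, hr2.2]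

/-- the exceptional classes for `Q` -/
noncomputable def badQ (Q : Finset ℕ) (η : ℝ) (p : ℕ) : Finset ℕ :=
  (range p).filter fun x => η * ((Q.card : ℝ) ^ 2 / p) ≤ |(rep Q p x : ℝ) - (Q.card : ℝ) ^ 2 / p|

/-- the classes where the number of representations is not within `η` of the expected one -/
noncomputable def bad (𝒬 : Set ℕ) (η : ℝ) (p : ℕ) : Finset ℕ :=
  (Icc 1 (p - 1)).filter fun x => η * ev 𝒬 p ≤ |(R 𝒬 p x : ℝ) - ev 𝒬 p|

/-- one prime, two approximating primes -/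
theorem bad_cover (𝒬 : Set ℕ) (η : ℝ) (hη : 0 < η) (hη1 : η ≤ 1) (p u v : ℕ) (hp : p.Prime)
    (hup : u ≤ p) (hpv : p ≤ v) (hpos : 0 < (below 𝒬 u).card)
    (hc : ((below 𝒬 v).card : ℝ) ≤ (1 + η / 4) * (below 𝒬 u).card) :
    bad 𝒬 η p ⊆ badQ (below 𝒬 u) (η / 4) p ∪ badQ (below 𝒬 v) (η / 4) p := by
  classical
  have hp0 : (0 : ℝ) < p := by exact_mod_cast hp.pos
  intro x hx
  unfold bad at hx
  rw [mem_filter, mem_Icc] at hx
  obtain ⟨⟨hx1, hx2⟩, hx3⟩ := hx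
  have hxp : x < p := by have := hp.pos; omega
  by_contra hcon
  rw [mem_union, not_or] at hcon
  unfold badQ at hcon
  rw [mem_filter, mem_filter] at hcon
  obtain ⟨hc1, hc2⟩ := hcon
  have hr1 : |(rep (below 𝒬 u) p x : ℝ) - ((below 𝒬 u).card : ℝ) ^ 2 / p|
      < η / 4 * (((below 𝒬 u).card : ℝ) ^ 2 / p) := by
    by_contra h
    exact hc1 ⟨mem_range.mpr hxp, not_lt.mp h⟩
  have hr2 : |(rep (below 𝒬 v) p x : ℝ) - ((below 𝒬 v).card : ℝ) ^ 2 / p|
      < η / 4 * (((below 𝒬 v).card : ℝ) ^ 2 / p) := by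
    by_contra h
    exact hc2 ⟨mem_range.mpr hxp, not_lt.mp h⟩
  have hR1 : rep (below 𝒬 u) p x ≤ R 𝒬 p x := by
    rw [R_eq 𝒬 p x hxp]; exact rep_mono (below_mono 𝒬 hup) p x
  have hR2 : R 𝒬 p x ≤ rep (below 𝒬 v) p x := by
    rw [R_eq 𝒬 p x hxp]; exact rep_mono (below_mono 𝒬 hpv) p x
  have := sandwich η (below 𝒬 u).card (below 𝒬 p).card (below 𝒬 v).card p _ (R 𝒬 p x) _ hη hη1
    (by exact_mod_cast hpos) (by exact_mod_cast card_le_card (below_mono 𝒬 hup))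
    (by exact_mod_cast card_le_card (below_mono 𝒬 hpv)) hc hp0 (by exact_mod_cast hR1)
    (by exact_mod_cast hR2) hr1 hr2
  unfold ev at hx3
  linarith

/-- **[A]** -/
theorem part_A (X : ℕ) (hX : 2 ≤ X) (𝒬 : Set ℕ) (h𝒬 : ∀ q ∈ 𝒬, q.Prime) (δ : ℝ) (hδ : 0 < δ)
    (hδ1 : δ ≤ 1) (hdens : δ * ((Nat.primesLE X).card : ℝ) ≤ ((below 𝒬 (X + 1)).card : ℝ))
    (η : ℝ) (hη : 0 < η) (hη1 : η ≤ 1) :
    ((∑ p ∈ dy X, (bad 𝒬 η p).card : ℕ) : ℝ) ≤ 10 ^ 9 / (δ * η) ^ 3 * X * Real.log X ^ 2 := by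
  classical
  have hX0 : (2 : ℝ) ≤ X := by exact_mod_cast hX
  have hlog : 0 < Real.log X := Real.log_pos (by linarith)
  obtain ⟨k0, hk0⟩ : ∃ k0, k0 = (below 𝒬 (X + 1)).card := ⟨_, rfl⟩
  obtain ⟨N0, hN0⟩ : ∃ N0, N0 = (below 𝒬 (2 * X + 1)).card := ⟨_, rfl⟩
  rw [← hk0] at hdens
  have hpil := pi_lower X hX
  have hpipos : (0 : ℝ) < (Nat.primesLE X).card := lt_of_lt_of_le (by positivity) hpil
  have hk0r' : (0 : ℝ) < k0 := lt_of_lt_of_le (mul_pos hδ hpipos) hdens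
  have hk0pos : 1 ≤ k0 := by
    have : 0 < k0 := by exact_mod_cast hk0r'
    omega
  have hk0r : (1 : ℝ) ≤ k0 := by exact_mod_cast hk0pos
  obtain ⟨D, hD⟩ : ∃ D : ℕ, D = ⌊η / 4 * k0⌋₊ + 1 := ⟨_, rfl⟩
  have hDpos : 1 ≤ D := by omega
  have hD1 : ((D - 1 : ℕ) : ℝ) ≤ η / 4 * k0 := by
    rw [hD, Nat.add_sub_cancel]
    exact Nat.floor_le (by positivity)
  have hD2 : η / 4 * k0 < D := by
    rw [hD]; push_cast
    exact Nat.lt_floor_add_one _
  obtain ⟨J, hJ⟩ : ∃ J : ℕ, J = (N0 - k0) / D := ⟨_, rfl⟩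
  obtain ⟨jj, hjj⟩ : ∃ jj : ℕ → ℕ, jj = fun p => ((below 𝒬 p).card - k0) / D := ⟨_, rfl⟩
  obtain ⟨W, hW⟩ : ∃ W : ℝ, W = 18432 * (X : ℝ) ^ 3 / (η ^ 2 * (k0 : ℝ) ^ 2) := ⟨_, rfl⟩
  have hdy : ∀ p ∈ dy X, X < p ∧ p ≤ 2 * X ∧ p.Prime ∧ k0 ≤ (below 𝒬 p).card ∧
      (below 𝒬 p).card ≤ N0 := by
    intro p hp
    unfold dy at hp
    rw [mem_filter, mem_Ioc] at hp
    refine ⟨hp.1.1, hp.1.2, hp.2, ?_, ?_⟩
    · rw [hk0]; exact card_le_card (below_mono 𝒬 (by omega))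
    · rw [hN0]; exact card_le_card (below_mono 𝒬 (by omega))
  -- one approximating set
  have hpiece : ∀ u ∈ dy X, ((∑ p ∈ dy X, (badQ (below 𝒬 u) (η / 4) p).card : ℕ) : ℝ) ≤ W := by
    intro u hu
    obtain ⟨hu1, hu2, hup, hu3, hu4⟩ := hdy u hu
    have hkr : (k0 : ℝ) ≤ (below 𝒬 u).card := by exact_mod_cast hu3
    have h := bad_pair X (by omega) (below 𝒬 u) (fun q hq => by
        rw [mem_below] at hq
        exact ⟨h𝒬 q hq.2, by omega⟩)
      (by rw [← card_pos]; omega) (η / 4) (by positivity)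
    unfold badQ
    refine h.trans ?_
    rw [hW]
    have h1 : (η / 4) ^ 2 * ((below 𝒬 u).card : ℝ) ^ 2
        = η ^ 2 * ((below 𝒬 u).card : ℝ) ^ 2 / 16 := by ring
    rw [h1, div_div_eq_mul_div]
    have h2 : 1152 * (X : ℝ) ^ 3 * 16 = 18432 * (X : ℝ) ^ 3 := by ring
    rw [h2]
    apply div_le_div_of_nonneg_left (by positivity) (by positivity)
    apply mul_le_mul_of_nonneg_left _ (by positivity)
    exact pow_le_pow_left₀ (by positivity) hkr 2
  have hWpos : 0 ≤ W := by rw [hW]; positivity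
  -- one block
  have hblock : ∀ j ∈ range (J + 1),
      ((∑ p ∈ (dy X).filter (fun p => jj p = j), (bad 𝒬 η p).card : ℕ) : ℝ) ≤ 2 * W := by
    intro j _
    by_cases hne : ((dy X).filter fun p => jj p = j).Nonempty
    · obtain ⟨u, hu⟩ : ∃ u, u = ((dy X).filter fun p => jj p = j).min' hne := ⟨_, rfl⟩
      obtain ⟨v, hv⟩ : ∃ v, v = ((dy X).filter fun p => jj p = j).max' hne := ⟨_, rfl⟩
      have humem : u ∈ (dy X).filter fun p => jj p = j := by rw [hu]; exact min'_mem _ _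
      have hvmem : v ∈ (dy X).filter fun p => jj p = j := by rw [hv]; exact max'_mem _ _
      rw [mem_filter] at humem hvmem
      obtain ⟨hud, huj⟩ := humem
      obtain ⟨hvd, hvj⟩ := hvmem
      obtain ⟨hu1, hu2, hup, hu3, hu4⟩ := hdy u hud
      obtain ⟨hv1, hv2, hvp, hv3, hv4⟩ := hdy v hvd
      have hcount : ((below 𝒬 v).card : ℝ) ≤ (1 + η / 4) * (below 𝒬 u).card := by
        rw [hjj] at huj hvj
        simp only at huj hvj
        have h1 : j * D ≤ (below 𝒬 u).card - k0 := by rw [← huj]; exact Nat.div_mul_le_self _ _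
        have h2 : (below 𝒬 v).card - k0 < j * D + D := by
          have := Nat.lt_div_mul_add (a := (below 𝒬 v).card - k0) (b := D) (by omega)
          rw [hvj] at this
          exact this
        have h3 : (below 𝒬 v).card ≤ (below 𝒬 u).card + (D - 1) := by omega
        have h4 : ((below 𝒬 v).card : ℝ) ≤ (below 𝒬 u).card + ((D - 1 : ℕ) : ℝ) := by
          exact_mod_cast h3
        have h5 : (k0 : ℝ) ≤ (below 𝒬 u).card := by exact_mod_cast hu3
        nlinarith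
      have hle : (∑ p ∈ (dy X).filter (fun p => jj p = j), (bad 𝒬 η p).card)
          ≤ ∑ p ∈ dy X, ((badQ (below 𝒬 u) (η / 4) p).card
            + (badQ (below 𝒬 v) (η / 4) p).card) := by
        refine le_trans (sum_le_sum (g := fun p => (badQ (below 𝒬 u) (η / 4) p).card
            + (badQ (below 𝒬 v) (η / 4) p).card) ?_)
          (sum_le_sum_of_subset (filter_subset _ _))
        intro p hp
        have hup' : u ≤ p := by rw [hu]; exact min'_le _ _ hp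
        have hpv' : p ≤ v := by rw [hv]; exact le_max' _ _ hp
        have hpp : p.Prime := (hdy p (mem_filter.mp hp).1).2.2.1
        exact (card_le_card (bad_cover 𝒬 η hη hη1 p u v hpp hup' hpv' (by omega) hcount)).trans
          (card_union_le _ _)
      have h6 := hpiece u hud
      have h7 := hpiece v hvd
      rw [sum_add_distrib] at hle
      have h8 : ((∑ p ∈ (dy X).filter (fun p => jj p = j), (bad 𝒬 η p).card : ℕ) : ℝ)
          ≤ ((∑ p ∈ dy X, (badQ (below 𝒬 u) (η / 4) p).card : ℕ) : ℝ)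
            + ((∑ p ∈ dy X, (badQ (below 𝒬 v) (η / 4) p).card : ℕ) : ℝ) := by
        exact_mod_cast hle
      linarith
    · rw [not_nonempty_iff_eq_empty] at hne
      rw [hne, sum_empty, Nat.cast_zero]
      linarith
  have htot : ((∑ p ∈ dy X, (bad 𝒬 η p).card : ℕ) : ℝ) ≤ ((J + 1 : ℕ) : ℝ) * (2 * W) := by
    have hmaps : ∀ p ∈ dy X, jj p ∈ range (J + 1) := by
      intro p hp
      obtain ⟨_, _, _, h3, h4⟩ := hdy p hp
      rw [mem_range, hjj, hJ]
      simp only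
      exact Nat.lt_succ_of_le (Nat.div_le_div_right (by omega))
    rw [← sum_fiberwise_of_maps_to hmaps, Nat.cast_sum]
    refine (sum_le_sum hblock).trans ?_
    rw [sum_const, card_range, nsmul_eq_mul]
  have hJ2 : ((J + 1 : ℕ) : ℝ) ≤ 321 / (δ * η) := by
    have h1 : (J : ℝ) * D ≤ N0 := by
      have hJD : J * D ≤ N0 - k0 := by rw [hJ]; exact Nat.div_mul_le_self _ _
      have : J * D ≤ N0 := by omega
      exact_mod_cast this
    have h2 : (N0 : ℝ) * δ ≤ 80 * k0 := by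
      have h3 : (N0 : ℝ) ≤ ((Nat.primesLE (2 * X)).card : ℝ) := by
        rw [hN0]; exact_mod_cast below_le_primes 𝒬 h𝒬 (2 * X)
      have h4 := pi_double X hX
      calc (N0 : ℝ) * δ ≤ (80 * (Nat.primesLE X).card) * δ :=
            mul_le_mul_of_nonneg_right (h3.trans h4) hδ.le
        _ = 80 * (δ * (Nat.primesLE X).card) := by ring
        _ ≤ 80 * k0 := by linarith
    have h3 : (J : ℝ) * (η / 4 * k0) * δ ≤ 80 * k0 := by
      have h5 : (J : ℝ) * (η / 4 * k0) ≤ N0 :=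
        (mul_le_mul_of_nonneg_left hD2.le (Nat.cast_nonneg J)).trans h1
      exact (mul_le_mul_of_nonneg_right h5 hδ.le).trans h2
    have h4 : (J : ℝ) * (δ * η) ≤ 320 := by
      have h5 : ((J : ℝ) * (δ * η)) * k0 ≤ 320 * k0 := by nlinarith
      exact le_of_mul_le_mul_right h5 (by linarith)
    have h6 : δ * η ≤ 1 := by nlinarith
    rw [le_div_iff₀ (mul_pos hδ hη)]
    push_cast
    nlinarith
  have hinv : (X : ℝ) ^ 3 / (k0 : ℝ) ^ 2 ≤ 64 * X * Real.log X ^ 2 / δ ^ 2 := by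
    rw [div_le_div_iff₀ (by positivity) (by positivity)]
    have h1 : (X : ℝ) * δ ≤ k0 * (8 * Real.log X) := by
      rw [div_le_iff₀ (by positivity)] at hpil
      calc (X : ℝ) * δ ≤ ((Nat.primesLE X).card * (8 * Real.log X)) * δ :=
            mul_le_mul_of_nonneg_right hpil hδ.le
        _ = (δ * (Nat.primesLE X).card) * (8 * Real.log X) := by ring
        _ ≤ _ := mul_le_mul_of_nonneg_right hdens (by positivity)
    have h2 : ((X : ℝ) * δ) ^ 2 ≤ (k0 * (8 * Real.log X)) ^ 2 :=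
      pow_le_pow_left₀ (by positivity) h1 2
    calc (X : ℝ) ^ 3 * δ ^ 2 = X * (X * δ) ^ 2 := by ring
      _ ≤ X * (k0 * (8 * Real.log X)) ^ 2 := mul_le_mul_of_nonneg_left h2 (by positivity)
      _ = _ := by ring
  refine htot.trans ?_
  have h5 : 2 * W = 36864 / η ^ 2 * ((X : ℝ) ^ 3 / (k0 : ℝ) ^ 2) := by
    rw [hW]
    field_simp
    ring
  rw [h5]
  calc ((J + 1 : ℕ) : ℝ) * (36864 / η ^ 2 * ((X : ℝ) ^ 3 / (k0 : ℝ) ^ 2))
      ≤ 321 / (δ * η) * (36864 / η ^ 2 * (64 * X * Real.log X ^ 2 / δ ^ 2)) := by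
        apply mul_le_mul hJ2 _ (by positivity) (by positivity)
        exact mul_le_mul_of_nonneg_left hinv (by positivity)
    _ = 757334016 / (δ * η) ^ 3 * X * Real.log X ^ 2 := by
        field_simp
        ring
    _ ≤ 10 ^ 9 / (δ * η) ^ 3 * X * Real.log X ^ 2 := by
        apply mul_le_mul_of_nonneg_right _ (by positivity)
        apply mul_le_mul_of_nonneg_right _ (by positivity)
        apply div_le_div_of_nonneg_right _ (by positivity)
        norm_num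

end Pool.Agent.MP_de0709_nt
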