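import Mathlib
import Pool.Agent.MP_de0709_nt.A

set_option autoImplicit false

/-! # Consequences for every residue class -/

namespace Pool.Agent.MP_de0709_nt

open Finset

/-- `x` is congruent to a product of an element of `A` and an element of `B` -/
def Hits (A B : Finset ℕ) (p x : ℕ) : Prop := ∃ a ∈ A, ∃ b ∈ B, a * b ≡ x [MOD p]

/-- every nonzero class is a product of an element of `A` and an element of `B` -/
def Cov (A B : Finset ℕ) (p : ℕ) : Prop := ∀ x ∈ Icc 1 (p - 1), Hits A B p x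

open Classical in
/-- the nonzero classes that are not products -/
noncomputable def miss (A B : Finset ℕ) (p : ℕ) : Finset ℕ :=
  (Icc 1 (p - 1)).filter fun x => ¬ Hits A B p x

theorem mem_miss (A B : Finset ℕ) (p x : ℕ) :
    x ∈ miss A B p ↔ x ∈ Icc 1 (p - 1) ∧ ¬ Hits A B p x := by
  classical
  unfold miss
  rw [mem_filter]

/-- every set `T` of at least `L` nonzero residues has, for every `x`, an element `t` with
`x ≡ t a b`, `a ∈ A`, `b ∈ B` -/
def Dil (A B : Finset ℕ) (L : ℝ) (p : ℕ) : Prop :=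
  ∀ T : Finset ℕ, T ⊆ Icc 1 (p - 1) → L ≤ T.card → ∀ x ∈ Icc 1 (p - 1),
    ∃ t ∈ T, ∃ a ∈ A, ∃ b ∈ B, t * (a * b) ≡ x [MOD p]

theorem rep2_zero_of (A B : Finset ℕ) (p x : ℕ) (hx : x < p) (h : ¬ Hits A B p x) :
    rep2 A B p x = 0 := by
  unfold rep2
  rw [card_eq_zero, filter_eq_empty_iff]
  rintro ⟨q₁, q₂⟩ hq hmod
  rw [mem_product] at hq
  refine h ⟨q₁, hq.1, q₂, hq.2, ?_⟩
  rw [Nat.ModEq, Nat.mod_eq_of_lt hx]
  exact hmod

theorem miss_subset_bad (𝒬 : Set ℕ) (p : ℕ) (hp : p.Prime) :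
    miss (below 𝒬 p) (below 𝒬 p) p ⊆ bad 𝒬 1 p := by
  intro x hx
  rw [mem_miss] at hx
  unfold bad
  rw [mem_filter]
  refine ⟨hx.1, ?_⟩
  have hxp : x < p := by
    have := mem_Icc.mp hx.1
    have := hp.pos
    omega
  have h0 : R 𝒬 p x = 0 := by
    rw [R_eq 𝒬 p x hxp]
    exact rep2_zero_of _ _ p x hxp hx.2
  rw [h0, one_mul, Nat.cast_zero, zero_sub, abs_neg]
  exact le_abs_self _

/-- an inverse class -/
theorem exists_inv (p t x : ℕ) (hp : p.Prime) (ht : t ∈ Icc 1 (p - 1)) (hx : x ∈ Icc 1 (p - 1)) :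
    ∃ y ∈ Icc 1 (p - 1), t * y ≡ x [MOD p] := by
  have : Fact p.Prime := ⟨hp⟩
  rw [mem_Icc] at ht hx
  have hp1 := hp.one_lt
  have ht0 : (t : ZMod p) ≠ 0 := by
    intro h
    rw [ZMod.natCast_eq_zero_iff] at h
    have := Nat.le_of_dvd (by omega) h
    omega
  have hx0 : (x : ZMod p) ≠ 0 := by
    intro h
    rw [ZMod.natCast_eq_zero_iff] at h
    have := Nat.le_of_dvd (by omega) h
    omega
  refine ⟨((x : ZMod p) * (t : ZMod p)⁻¹).val, ?_, ?_⟩
  · rw [mem_Icc]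
    have h1 := ZMod.val_lt ((x : ZMod p) * (t : ZMod p)⁻¹)
    have h2 : ((x : ZMod p) * (t : ZMod p)⁻¹).val ≠ 0 := by
      rw [Ne, ZMod.val_eq_zero]
      exact mul_ne_zero hx0 (inv_ne_zero ht0)
    omega
  · rw [← ZMod.natCast_eq_natCast_iff]
    push_cast
    rw [ZMod.natCast_zmod_val]
    field_simp

/-- cancellation -/
theorem inj_inv (p t t' x y : ℕ) (hp : p.Prime) (ht : t ∈ Icc 1 (p - 1)) (ht' : t' ∈ Icc 1 (p - 1))
    (hx : x ∈ Icc 1 (p - 1)) (h : t * y ≡ x [MOD p]) (h' : t' * y ≡ x [MOD p]) : t = t' := by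
  rw [mem_Icc] at ht ht' hx
  have h1 : t * y ≡ t' * y [MOD p] := h.trans h'.symm
  have hy : Nat.Coprime p y := by
    rw [Nat.Prime.coprime_iff_not_dvd hp]
    intro hd
    have h2 : t * y ≡ 0 [MOD p] := (Nat.modEq_zero_iff_dvd).mpr (dvd_mul_of_dvd_right hd t)
    have h3 : x ≡ 0 [MOD p] := h.symm.trans h2
    have h4 := Nat.le_of_dvd (by omega) ((Nat.modEq_zero_iff_dvd).mp h3)
    omega
  have h2 : t ≡ t' [MOD p] := Nat.ModEq.cancel_right_of_coprime (by
    rw [Nat.coprime_iff_gcd_eq_one] at hy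
    exact hy) h1
  rw [Nat.ModEq, Nat.mod_eq_of_lt (by omega), Nat.mod_eq_of_lt (by omega)] at h2
  exact h2

/-- **dilation**: if some `x` is not `t y` with `t ∈ T` and `y ∈ G`, then at least `|T|` classes
are outside `G` -/
theorem dilate (p : ℕ) (hp : p.Prime) (G : ℕ → Prop) (M : Finset ℕ)
    (hG : ∀ y ∈ Icc 1 (p - 1), ¬ G y → y ∈ M) (T : Finset ℕ)
    (hT : T ⊆ Icc 1 (p - 1)) (x : ℕ) (hx : x ∈ Icc 1 (p - 1))
    (hno : ∀ t ∈ T, ∀ y ∈ Icc 1 (p - 1), t * y ≡ x [MOD p] → ¬ G y) : T.card ≤ M.card := by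
  classical
  have hch : ∀ t ∈ T, ∃ y ∈ Icc 1 (p - 1), t * y ≡ x [MOD p] := fun t ht =>
    exists_inv p t x hp (hT ht) hx
  choose! y hy1 hy2 using hch
  apply card_le_card_of_injOn y
  · intro t ht
    exact hG _ (hy1 t ht) (hno t ht _ (hy1 t ht) (hy2 t ht))
  · intro t ht t' ht' heq
    refine inj_inv p t t' x (y t) hp (hT ht) (hT ht') hx (hy2 t ht) ?_
    rw [heq]
    exact hy2 t' ht'

/-- few missing classes give `Dil` -/
theorem dil_of (p : ℕ) (hp : p.Prime) (A B : Finset ℕ) (L : ℝ) (h : ¬ Dil A B L p) :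
    L ≤ (miss A B p).card := by
  classical
  unfold Dil at h
  push Not at h
  obtain ⟨T, hT, hL, x, hx, hno⟩ := h
  refine hL.trans ?_
  have := dilate p hp (Hits A B p) (miss A B p)
    (fun y hy hG => (mem_miss A B p y).mpr ⟨hy, hG⟩) T hT x hx (by
      rintro t ht y hy hty ⟨a, ha, b, hb, hab⟩
      exact hno t ht a ha b hb ((Nat.ModEq.mul_left t hab).trans hty))
  exact_mod_cast this

/-- **[B]** Markov for part A -/
theorem part_B (X : ℕ) (hX : 2 ≤ X) (𝒬 : Set ℕ) (h𝒬 : ∀ q ∈ 𝒬, q.Prime) (δ : ℝ) (hδ : 0 < δ)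
    (hδ1 : δ ≤ 1) (hdens : δ * ((Nat.primesLE X).card : ℝ) ≤ ((below 𝒬 (X + 1)).card : ℝ))
    (η : ℝ) (hη : 0 < η) (hη1 : η ≤ 1) (L : ℝ) (hL : 1 ≤ L) :
    (((dy X).filter fun p => L ≤ ((bad 𝒬 η p).card : ℝ)).card : ℝ)
      ≤ 10 ^ 9 / (δ * η) ^ 3 * X * Real.log X ^ 2 / L := by
  have h := part_A X hX 𝒬 h𝒬 δ hδ hδ1 hdens η hη hη1
  rw [le_div_iff₀ (by linarith)]
  refine le_trans ?_ h
  rw [Nat.cast_sum, ← nsmul_eq_mul, ← sum_const]
  refine le_trans (sum_le_sum (g := fun p => ((bad 𝒬 η p).card : ℝ)) ?_)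
    (sum_le_sum_of_subset_of_nonneg (filter_subset _ _) fun _ _ _ => Nat.cast_nonneg _)
  intro p hp
  exact (mem_filter.mp hp).2

open Classical in
/-- **[B2]** dilates, for two finite sets of primes -/
theorem part_B2 (X : ℕ) (hX : 1 ≤ X) (Q₁ Q₂ : Finset ℕ) (hQ₁ : ∀ q ∈ Q₁, q.Prime ∧ q ≤ 2 * X)
    (hQ₂ : ∀ q ∈ Q₂, q.Prime ∧ q ≤ 2 * X) (hne₁ : Q₁.Nonempty) (hne₂ : Q₂.Nonempty)
    (L : ℝ) (hL : 1 ≤ L) :
    (((dy X).filter fun p => ¬ Dil Q₁ Q₂ L p).card : ℝ)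
      ≤ 1152 * (X : ℝ) ^ 3 / (L * ((Q₁.card : ℝ) * Q₂.card)) := by
  have h := bad_pair2 X hX Q₁ Q₂ hQ₁ hQ₂ hne₁ hne₂ 1 one_pos
  have hk : (0 : ℝ) < (Q₁.card : ℝ) * Q₂.card := by
    have h1 : (0 : ℝ) < Q₁.card := by exact_mod_cast hne₁.card_pos
    have h2 : (0 : ℝ) < Q₂.card := by exact_mod_cast hne₂.card_pos
    exact mul_pos h1 h2
  have hL0 : 0 < L := by linarith
  have hlow : (((dy X).filter fun p => ¬ Dil Q₁ Q₂ L p).card : ℝ) * L
      ≤ ((∑ p ∈ dy X, ((range p).filter fun x =>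
        1 * ((Q₁.card : ℝ) * Q₂.card / p) ≤
          |(rep2 Q₁ Q₂ p x : ℝ) - (Q₁.card : ℝ) * Q₂.card / p|).card : ℕ) : ℝ) := by
    rw [Nat.cast_sum, ← nsmul_eq_mul, ← sum_const]
    refine le_trans (sum_le_sum (g := fun p => ((((range p).filter fun x =>
        1 * ((Q₁.card : ℝ) * Q₂.card / p) ≤
          |(rep2 Q₁ Q₂ p x : ℝ) - (Q₁.card : ℝ) * Q₂.card / p|).card : ℕ) : ℝ)) ?_)
      (sum_le_sum_of_subset_of_nonneg (filter_subset _ _) fun _ _ _ => Nat.cast_nonneg _)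
    intro p hp
    rw [mem_filter] at hp
    obtain ⟨hpd, hnd⟩ := hp
    unfold dy at hpd
    rw [mem_filter] at hpd
    refine (dil_of p hpd.2 Q₁ Q₂ L hnd).trans ?_
    have hsub : miss Q₁ Q₂ p ⊆ (range p).filter fun x =>
        1 * ((Q₁.card : ℝ) * Q₂.card / p) ≤
          |(rep2 Q₁ Q₂ p x : ℝ) - (Q₁.card : ℝ) * Q₂.card / p| := by
      intro x hx
      rw [mem_miss] at hx
      have hxp : x < p := by
        have := mem_Icc.mp hx.1
        have := hpd.2.pos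
        omega
      rw [mem_filter, mem_range]
      refine ⟨hxp, ?_⟩
      rw [rep2_zero_of Q₁ Q₂ p x hxp hx.2, one_mul, Nat.cast_zero, zero_sub, abs_neg]
      exact le_abs_self _
    exact_mod_cast card_le_card hsub
  have h2 := hlow.trans h
  rw [one_pow, one_mul] at h2
  rw [le_div_iff₀ (by positivity)]
  rw [le_div_iff₀ hk] at h2
  linarith

open Classical in
/-- **[C]** products of two arbitrary sets: `A ⊆ [1, X]`, `B ⊆ [1, N]` -/
theorem part_C (X N : ℕ) (hX : 1 ≤ X) (hN : 1 ≤ N) (A B : Finset ℕ) (hA : A ⊆ Icc 1 X)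
    (hB : B ⊆ Icc 1 N) (hneA : A.Nonempty) (hneB : B.Nonempty) :
    (((dy X).filter fun p => ¬ Cov A B p).card : ℝ)
      ≤ 320 * X * (N + (X : ℝ) ^ 2) / ((A.card : ℝ) * B.card) := by
  have hX0 : (1 : ℝ) ≤ X := by exact_mod_cast hX
  have hN0 : (1 : ℝ) ≤ N := by exact_mod_cast hN
  have hApos : (0 : ℝ) < A.card := by exact_mod_cast hneA.card_pos
  have hBpos : (0 : ℝ) < B.card := by exact_mod_cast hneB.card_pos
  have h := bad_gen B (fun n => n) (N + 1) X 1 hX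
    (by
      intro q hq
      have := mem_Icc.mp (hB hq)
      show q < N + 1
      omega)
    (by
      intro n
      have : (B.filter fun i => i = n) ⊆ {n} := by
        intro i hi
        rw [mem_singleton]
        exact (mem_filter.mp hi).2
      exact (card_le_card this).trans (by simp))
    1 one_pos
  obtain ⟨ms, hms⟩ : ∃ ms : ℕ → Finset ℕ, ms = fun p => (range p).filter fun x =>
        1 * ((B.card : ℝ) / p) ≤ |(cnt B (fun n => n) p x : ℝ) - B.card / p| := ⟨_, rfl⟩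
  have hmc : ∀ p, ((range p).filter fun x =>
        1 * ((B.card : ℝ) / p) ≤ |(cnt B (fun n => n) p x : ℝ) - B.card / p|).card
        = (ms p).card := by intro p; rw [hms]
  simp only [hmc] at h
  have hlow : ∀ p ∈ (dy X).filter (fun p => ¬ Cov A B p), (A.card : ℝ)
      ≤ ((ms p).card : ℝ) := by
    intro p hp
    rw [mem_filter] at hp
    obtain ⟨hpd, hext⟩ := hp
    unfold dy at hpd
    rw [mem_filter, mem_Ioc] at hpd
    obtain ⟨⟨hp1, hp2⟩, hpp⟩ := hpd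
    unfold Cov at hext
    push Not at hext
    obtain ⟨x, hx, hno⟩ := hext
    have hcard := dilate p hpp (fun y => ∃ b ∈ B, b ≡ y [MOD p]) (ms p)
      (by
        intro y hy hG
        have hyp : y < p := by
          have := mem_Icc.mp hy
          have := hpp.pos
          omega
        have hc0 : cnt B (fun n => n) p y = 0 := by
          unfold cnt
          rw [card_eq_zero, filter_eq_empty_iff]
          intro r hr hmod
          apply hG
          refine ⟨r, hr, ?_⟩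
          rw [Nat.ModEq, Nat.mod_eq_of_lt hyp]
          exact hmod
        rw [hms]
        simp only
        rw [mem_filter, mem_range]
        refine ⟨hyp, ?_⟩
        rw [hc0, one_mul, Nat.cast_zero, zero_sub, abs_neg]
        exact le_abs_self _)
      A (by
        intro a ha
        have := mem_Icc.mp (hA ha)
        rw [mem_Icc]
        omega) x hx (by
        rintro a ha y hy hay ⟨b, hb, hby⟩
        exact hno ⟨a, ha, b, hb, (Nat.ModEq.mul_left a hby).trans hay⟩)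
    exact_mod_cast hcard
  have hsum : (((dy X).filter fun p => ¬ Cov A B p).card : ℝ) * A.card
      ≤ ((∑ p ∈ dy X, (ms p).card : ℕ) : ℝ) := by
    rw [Nat.cast_sum, ← nsmul_eq_mul, ← sum_const]
    exact le_trans (sum_le_sum hlow)
      (sum_le_sum_of_subset_of_nonneg (filter_subset _ _) fun _ _ _ => Nat.cast_nonneg _)
  obtain ⟨M, hM⟩ : ∃ M : ℝ, M = ((∑ p ∈ dy X, (ms p).card : ℕ) : ℝ) := ⟨_, rfl⟩
  rw [← hM] at h hsum
  obtain ⟨E, hE⟩ : ∃ E : ℝ, E = (((dy X).filter fun p =>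
    ¬ Cov A B p).card : ℝ) := ⟨_, rfl⟩
  rw [← hE] at hsum ⊢
  have hM2 : M * B.card ≤ 320 * X * (N + (X : ℝ) ^ 2) := by
    have h1 : M * (1 ^ 2 * (B.card : ℝ) ^ 2 / (2 * X)) * (2 * X)
        ≤ 32 * (((N + 1 : ℕ) : ℝ) + 4 * (X : ℝ) ^ 2) * (((1 : ℕ) : ℝ) * B.card) * (2 * X) :=
      mul_le_mul_of_nonneg_right h (by positivity)
    have h2 : M * (1 ^ 2 * (B.card : ℝ) ^ 2 / (2 * X)) * (2 * X) = (M * B.card) * B.card := by
      field_simp
    rw [h2] at h1
    have h3 : 32 * (((N + 1 : ℕ) : ℝ) + 4 * (X : ℝ) ^ 2) * (((1 : ℕ) : ℝ) * B.card) * (2 * X)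
        ≤ (320 * X * (N + (X : ℝ) ^ 2)) * B.card := by
      push_cast
      have h4 : (N : ℝ) + 1 + 4 * (X : ℝ) ^ 2 ≤ 5 * (N + (X : ℝ) ^ 2) := by nlinarith
      have h5 : (0 : ℝ) ≤ 64 * B.card * X := by positivity
      nlinarith [mul_le_mul_of_nonneg_left h4 h5]
    exact le_of_mul_le_mul_right (h1.trans h3) hBpos
  rw [le_div_iff₀ (by positivity)]
  calc E * ((A.card : ℝ) * B.card) = (E * A.card) * B.card := by ring
    _ ≤ M * B.card := mul_le_mul_of_nonneg_right hsum hBpos.le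
    _ ≤ _ := hM2

end Pool.Agent.MP_de0709_nt
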