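import Mathlib
import Pool.Agent.LBS.Rough

set_option autoImplicit false

/-! # Rough pairs on the modular hyperbola with prescribed parities (every prime `p`) -/

namespace Pool.Agent.MP_de0709_nt

open Pool.Agent.LBS
open ArithmeticFunction (cardFactors cardFactors_mul cardFactors_apply_prime)

/-- number of prime factors modulo two -/
def om (n : ℕ) : ZMod 2 := ((cardFactors n : ℕ) : ZMod 2)

theorem om_mul {m n : ℕ} (hm : m ≠ 0) (hn : n ≠ 0) : om (m * n) = om m + om n := by
  unfold om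
  rw [cardFactors_mul hm hn]
  push_cast
  rfl

theorem om_prime {q : ℕ} (hq : q.Prime) : om q = 1 := by
  unfold om
  rw [cardFactors_apply_prime hq]
  rfl

/-- the parity of the number of prime factors of rough numbers below `y ^ (2B+12) p` does not
depend on the class modulo `p` only -/
theorem not_periodic {B y p : ℕ} (hB : SieveB B) (hy : 2 ≤ y) (hp : p.Prime)
    (hbig : y ^ (2 * B + 12) ≤ p)
    (same : ∀ n n' : ℕ, Rgh y n → Rgh y n' → n < y ^ (2 * B + 12) * p →
      n' < y ^ (2 * B + 12) * p → ¬ p ∣ n → n' ≡ n [MOD p] → om n' = om n) : False := by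
  have : Fact p.Prime := ⟨hp⟩
  have hy0 : 0 < y := by omega
  have H : RHyp B y p om :=
    { sieve := hB
      hy := hy
      prime := hp
      big := hbig
      mul := fun m n hm hn => om_mul hm hn
      same := same }
  obtain ⟨l, hl, hyl, hl2, hlp, r, hr⟩ := exists_split hB hy hp hbig
  have hpl : ¬ p ∣ l := by
    intro h
    rcases (Nat.dvd_prime hl).mp h with h1 | h1
    · exact hp.one_lt.ne' h1
    · exact hlp h1.symm
  obtain ⟨m, hm, hmc, hmJ, hmL⟩ := H.rep r.val
  have hmr : (m : ZMod p) = r := by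
    have h1 := (ZMod.natCast_eq_natCast_iff _ _ _).2 hmc
    rw [h1, ZMod.natCast_val, ZMod.cast_id]
  have hlm : l ≡ m * m [MOD p] := by
    rw [← ZMod.natCast_eq_natCast_iff]
    push_cast
    rw [hmr, hr]
  have hpm : ¬ p ∣ m := by
    intro h
    exact hpl ((hlm.dvd_iff (dvd_refl p)).2 (Dvd.dvd.mul_left h _))
  have hlL : l < y ^ (2 * B + 12) * p := by
    have h1 : 2 ≤ y ^ (2 * B + 12) := by
      calc 2 ≤ y := hy
        _ = y ^ 1 := (pow_one y).symm
        _ ≤ _ := Nat.pow_le_pow_right hy0 (by omega)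
    have := Nat.mul_le_mul_right p h1
    omega
  have h1 := RT_all H m hm hpm hmJ m l hm (Rgh.of_prime hl hyl) hmL hlL hpm hlm
  have h3 : ∀ z : ZMod 2, z + z = 0 := by decide
  have h4 : om l = 0 := h1.trans (h3 _)
  rw [om_prime hl] at h4
  exact absurd h4 (by decide)

/-- a rough number in the class `a / b` -/
theorem rough_quot {B y p : ℕ} (hB : SieveB B) (hy : 2 ≤ y) (hp : p.Prime) (hyp : y < p)
    {a b : ℕ} (hb : ¬ p ∣ b) : ∃ m : ℕ, Rgh y m ∧ m < (y ^ B + 1) * p ∧ m * b ≡ a [MOD p] := by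
  have : Fact p.Prime := ⟨hp⟩
  have hb0 : (b : ZMod p) ≠ 0 := by
    intro h
    rw [ZMod.natCast_eq_zero_iff] at h
    exact hb h
  obtain ⟨m, hm, hmc, hmlt⟩ := rough_rep hB hy hp hyp ((a : ZMod p) * (b : ZMod p)⁻¹).val
  refine ⟨m, hm, hmlt, ?_⟩
  have hmz : (m : ZMod p) = (a : ZMod p) * (b : ZMod p)⁻¹ := by
    have h1 := (ZMod.natCast_eq_natCast_iff _ _ _).2 hmc
    rw [h1, ZMod.natCast_val, ZMod.cast_id]
  rw [← ZMod.natCast_eq_natCast_iff]
  push_cast
  rw [hmz, mul_assoc, inv_mul_cancel₀ hb0, mul_one]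

theorem two_cases : ∀ u v i : ZMod 2, ¬ (u = i ∧ v = i + 1) → ¬ (v = i ∧ u = i + 1) → u = v := by
  decide

theorem two_cases' : ∀ u v i : ZMod 2, ¬ (u + 1 = i ∧ v = i) → ¬ (u = i ∧ v + 1 = i) → u = v := by
  decide

/-- **rough pairs with prescribed parities** -/
theorem parity_pairs {B : ℕ} (hB : SieveB B) {y p : ℕ} (hy : 2 ≤ y) (hp : p.Prime)
    (hbig : y ^ (2 * B + 14) ≤ p) {a : ℕ} (i j : ZMod 2) :
    ∃ m n : ℕ, Rgh y m ∧ Rgh y n ∧ m < y ^ (2 * B + 14) * p ∧ n < y ^ (2 * B + 14) * p ∧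
      m * n ≡ a [MOD p] ∧ om m = i ∧ om n = j := by
  have hy0 : 0 < y := by omega
  have hbig' : y ^ (2 * B + 12) ≤ p := (Nat.pow_le_pow_right hy0 (by omega)).trans hbig
  have hyp : y < p := by
    have h1 : y ^ 2 ≤ y ^ (2 * B + 12) := Nat.pow_le_pow_right (by omega) (by omega)
    nlinarith
  obtain ⟨hf1, hf2, hf3⟩ := pow_facts (B := B) hy
  have hle : y ^ (2 * B + 12) ≤ y ^ (2 * B + 14) := Nat.pow_le_pow_right hy0 (by omega)
  have hlep : y ^ (2 * B + 12) * p ≤ y ^ (2 * B + 14) * p := Nat.mul_le_mul_right _ hle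
  by_cases hij : i = j
  · subst hij
    by_contra hcon
    push Not at hcon
    obtain ⟨l, hl, hly, hl2y⟩ := Nat.exists_prime_lt_and_le_two_mul y (by omega)
    have hlR : Rgh y l := Rgh.of_prime hl hly
    have hyy : 2 * y ≤ y ^ 2 := by nlinarith
    have hly2 : l ≤ y ^ 2 := hl2y.trans hyy
    have hpl : ¬ p ∣ l := by
      intro h
      have h1 := Nat.le_of_dvd hl.pos h
      have h2 : y ^ 3 ≤ y ^ (2 * B + 12) := Nat.pow_le_pow_right hy0 (by omega)
      have h3 : y ^ 2 < y ^ 3 := Nat.pow_lt_pow_right (by omega) (by omega)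
      omega
    have hlL : ∀ k : ℕ, k < y ^ (2 * B + 12) * p → l * k < y ^ (2 * B + 14) * p := by
      intro k hk
      calc l * k < l * (y ^ (2 * B + 12) * p) := Nat.mul_lt_mul_of_pos_left hk hl.pos
        _ ≤ y ^ 2 * (y ^ (2 * B + 12) * p) := Nat.mul_le_mul_right _ hly2
        _ = y ^ (2 * B + 14) * p := by ring
    have h2 : ∀ m n : ℕ, Rgh y m → Rgh y n → m < y ^ (2 * B + 12) * p →
        n < y ^ (2 * B + 12) * p → (l * m) * n ≡ a [MOD p] → om m = om n := by
      intro m n hm hn hmL hnL hmod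
      apply two_cases' (om m) (om n) i
      · rintro ⟨h3, h4⟩
        refine hcon (l * m) n (hlR.mul hm) hn (hlL m hmL) (hnL.trans_le hlep) hmod ?_ h4
        rw [om_mul hl.ne_zero hm.1.ne', om_prime hl, add_comm]
        exact h3
      · rintro ⟨h3, h4⟩
        refine hcon m (l * n) hm (hlR.mul hn) (hmL.trans_le hlep) (hlL n hnL) ?_ h3 ?_
        · have e : m * (l * n) = (l * m) * n := by ring
          rw [e]; exact hmod
        · rw [om_mul hl.ne_zero hn.1.ne', om_prime hl, add_comm]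
          exact h4
    apply not_periodic hB hy hp hbig'
    intro n n' hn hn' hnL hn'L hpn hmod
    have hpln : ¬ p ∣ l * n := not_dvd_mul hp hpl hpn
    obtain ⟨m, hm, hmlt, hmc⟩ := rough_quot hB hy hp hyp (a := a) hpln
    have hmL : m < y ^ (2 * B + 12) * p := lt_of_lt_of_le hmlt (Nat.mul_le_mul_right _ hf1)
    have e1 := h2 m n hm hn hmL hnL (by
      have e : (l * m) * n = m * (l * n) := by ring
      rw [e]; exact hmc)
    have e2 := h2 m n' hm hn' hmL hn'L (by
      have e : (l * m) * n = m * (l * n) := by ring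
      refine (Nat.ModEq.mul_left _ hmod).trans ?_
      rw [e]; exact hmc)
    exact e2.symm.trans e1
  · have hj : j = i + 1 := by
      revert hij
      revert i j
      decide
    subst hj
    by_contra hcon
    push Not at hcon
    have h2 : ∀ m n : ℕ, Rgh y m → Rgh y n → m < y ^ (2 * B + 12) * p →
        n < y ^ (2 * B + 12) * p → m * n ≡ a [MOD p] → om m = om n := by
      intro m n hm hn hmL hnL hmod
      apply two_cases (om m) (om n) i
      · rintro ⟨h3, h4⟩
        exact hcon m n hm hn (hmL.trans_le hlep) (hnL.trans_le hlep) hmod h3 h4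
      · rintro ⟨h3, h4⟩
        exact hcon n m hn hm (hnL.trans_le hlep) (hmL.trans_le hlep)
          (by rw [mul_comm]; exact hmod) h3 h4
    apply not_periodic hB hy hp hbig'
    intro n n' hn hn' hnL hn'L hpn hmod
    obtain ⟨m, hm, hmlt, hmc⟩ := rough_quot hB hy hp hyp (a := a) hpn
    have hmL : m < y ^ (2 * B + 12) * p := lt_of_lt_of_le hmlt (Nat.mul_le_mul_right _ hf1)
    have e1 := h2 m n hm hn hmL hnL hmc
    have e2 := h2 m n' hm hn' hmL hn'L ((Nat.ModEq.mul_left _ hmod).trans hmc)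
    exact e2.symm.trans e1

end Pool.Agent.MP_de0709_nt
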