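import Mathlib
import Pool.Agent.MP_de0709_nt.BC

set_option autoImplicit false

/-!
# MP_de0709_nt: every class is a product of three primes, one of them tiny, for almost all primes

For `2 ≤ z₀, z₁, z₂ ≤ X` all but at most `C X³ (log z₀) (log z₁) (log z₂) / (z₀ z₁ z₂)` of the primes
`p` in `(X, 2X]` have the property that every nonzero class modulo `p` contains a product
`q₀ q₁ q₂` of primes with `qᵢ ≤ zᵢ`.  With `z₁ = z₂ = X`, `z₀ = (log X)^(3 + ε)` this holds for almost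
all primes; it also does for `zᵢ = X^(2/3 + ε)`.

Proof: by the large sieve for prime moduli the number of pairs `(p, y)` with `y` not of the form
`q₁ q₂` is at most a constant times `X³ / (π(z₁) π(z₂))`.  If `x` is not `q₀ q₁ q₂` then none of the
`π(z₀)` distinct classes `x / q₀` is of the form `q₁ q₂`.
-/

namespace Pool.Agent.MP_de0709_nt.ThreePrimesOld

open Finset Pool.Agent.MP_de0709_nt

open Classical in
theorem result : ∃ C : ℝ, 0 < C ∧ ∀ X z₀ z₁ z₂ : ℕ, 2 ≤ z₀ → z₀ ≤ X → 2 ≤ z₁ → z₁ ≤ X →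
    2 ≤ z₂ → z₂ ≤ X →
    (((Ioc X (2 * X)).filter fun p => Nat.Prime p ∧
        ¬ ∀ x : ℕ, 1 ≤ x → x < p → ∃ q₀ q₁ q₂ : ℕ, Nat.Prime q₀ ∧ Nat.Prime q₁ ∧ Nat.Prime q₂ ∧
          q₀ ≤ z₀ ∧ q₁ ≤ z₁ ∧ q₂ ≤ z₂ ∧ q₀ * q₁ * q₂ ≡ x [MOD p]).card : ℝ)
      ≤ C * (X : ℝ) ^ 3 * (Real.log z₀ * Real.log z₁ * Real.log z₂) / (z₀ * z₁ * z₂) := by
  refine ⟨589824, by norm_num, ?_⟩
  intro X z₀ z₁ z₂ h0 h0X h1 h1X h2 h2X
  have hX1 : 1 ≤ X := by omega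
  have hX0 : (1 : ℝ) ≤ X := by exact_mod_cast hX1
  obtain ⟨k₀, hk₀⟩ : ∃ k₀ : ℝ, k₀ = ((Nat.primesLE z₀).card : ℝ) := ⟨_, rfl⟩
  obtain ⟨k₁, hk₁⟩ : ∃ k₁ : ℝ, k₁ = ((Nat.primesLE z₁).card : ℝ) := ⟨_, rfl⟩
  obtain ⟨k₂, hk₂⟩ : ∃ k₂ : ℝ, k₂ = ((Nat.primesLE z₂).card : ℝ) := ⟨_, rfl⟩
  have hne : ∀ z : ℕ, 2 ≤ z → (Nat.primesLE z).Nonempty := fun z hz =>
    ⟨2, Nat.mem_primesLE.mpr ⟨hz, Nat.prime_two⟩⟩
  have hge1 : ∀ z : ℕ, 2 ≤ z → (1 : ℝ) ≤ ((Nat.primesLE z).card : ℝ) := fun z hz => by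
    exact_mod_cast (hne z hz).card_pos
  have hk₀1 : 1 ≤ k₀ := by rw [hk₀]; exact hge1 z₀ h0
  have hk₁1 : 1 ≤ k₁ := by rw [hk₁]; exact hge1 z₁ h1
  have hk₂1 : 1 ≤ k₂ := by rw [hk₂]; exact hge1 z₂ h2
  have hB := part_B2 X hX1 (Nat.primesLE z₁) (Nat.primesLE z₂)
    (fun q hq => by rw [Nat.mem_primesLE] at hq; exact ⟨hq.2, by omega⟩)
    (fun q hq => by rw [Nat.mem_primesLE] at hq; exact ⟨hq.2, by omega⟩)
    (hne z₁ h1) (hne z₂ h2) k₀ hk₀1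
  rw [← hk₁, ← hk₂] at hB
  have hsub : ((Ioc X (2 * X)).filter fun p => Nat.Prime p ∧
        ¬ ∀ x : ℕ, 1 ≤ x → x < p → ∃ q₀ q₁ q₂ : ℕ, Nat.Prime q₀ ∧ Nat.Prime q₁ ∧ Nat.Prime q₂ ∧
          q₀ ≤ z₀ ∧ q₁ ≤ z₁ ∧ q₂ ≤ z₂ ∧ q₀ * q₁ * q₂ ≡ x [MOD p])
      ⊆ (dy X).filter fun p => ¬ Dil (Nat.primesLE z₁) (Nat.primesLE z₂) k₀ p := by
    intro p hp
    rw [mem_filter] at hp
    obtain ⟨hpI, hpp, hno⟩ := hp
    rw [mem_filter]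
    refine ⟨by unfold dy; rw [mem_filter]; exact ⟨hpI, hpp⟩, fun hD => hno ?_⟩
    intro x hx1 hxp
    rw [mem_Ioc] at hpI
    obtain ⟨t, ht, a, ha, b, hb, hab⟩ := hD (Nat.primesLE z₀) (by
        intro q hq
        rw [Nat.mem_primesLE] at hq
        rw [mem_Icc]
        have := hq.2.one_lt
        omega) (by rw [hk₀]) x (by rw [mem_Icc]; omega)
    rw [Nat.mem_primesLE] at ht ha hb
    exact ⟨t, a, b, ht.2, ha.2, hb.2, ht.1, ha.1, hb.1, by rw [mul_assoc]; exact hab⟩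
  have hc : (((Ioc X (2 * X)).filter fun p => Nat.Prime p ∧
        ¬ ∀ x : ℕ, 1 ≤ x → x < p → ∃ q₀ q₁ q₂ : ℕ, Nat.Prime q₀ ∧ Nat.Prime q₁ ∧ Nat.Prime q₂ ∧
          q₀ ≤ z₀ ∧ q₁ ≤ z₁ ∧ q₂ ≤ z₂ ∧ q₀ * q₁ * q₂ ≡ x [MOD p]).card : ℝ)
      ≤ 1152 * (X : ℝ) ^ 3 / (k₀ * (k₁ * k₂)) :=
    le_trans (by exact_mod_cast card_le_card hsub) hB
  refine hc.trans ?_
  have hl : ∀ z : ℕ, 2 ≤ z → (0 : ℝ) < Real.log z := fun z hz =>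
    Real.log_pos (by have : (2 : ℝ) ≤ z := by exact_mod_cast hz
                     linarith)
  have hl0 := hl z₀ h0
  have hl1 := hl z₁ h1
  have hl2 := hl z₂ h2
  have hz0 : (2 : ℝ) ≤ z₀ := by exact_mod_cast h0
  have hz1 : (2 : ℝ) ≤ z₁ := by exact_mod_cast h1
  have hz2 : (2 : ℝ) ≤ z₂ := by exact_mod_cast h2
  have hp0 := pi_lower z₀ h0
  have hp1 := pi_lower z₁ h1
  have hp2 := pi_lower z₂ h2
  rw [← hk₀] at hp0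
  rw [← hk₁] at hp1
  rw [← hk₂] at hp2
  have hprod : ((z₀ : ℝ) / (8 * Real.log z₀)) * (((z₁ : ℝ) / (8 * Real.log z₁)) *
      ((z₂ : ℝ) / (8 * Real.log z₂))) ≤ k₀ * (k₁ * k₂) := by
    apply mul_le_mul hp0 _ (by positivity) (by linarith)
    exact mul_le_mul hp1 hp2 (by positivity) (by linarith)
  calc 1152 * (X : ℝ) ^ 3 / (k₀ * (k₁ * k₂))
      ≤ 1152 * (X : ℝ) ^ 3 / (((z₀ : ℝ) / (8 * Real.log z₀)) * (((z₁ : ℝ) / (8 * Real.log z₁)) *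
      ((z₂ : ℝ) / (8 * Real.log z₂)))) :=
        div_le_div_of_nonneg_left (by positivity) (by positivity) hprod
    _ = _ := by
        field_simp
        ring

end Pool.Agent.MP_de0709_nt.ThreePrimesOld
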