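import Mathlib
import Pool.Agent.MP_de0709_nt.BC

set_option autoImplicit false

/-!
# MP_de0709_nt: every class is a product of two primes, one of them slightly larger than `p`

For `2 ≤ z₁ ≤ X`, `2 ≤ z₂` all but at most `C X (z₂ + X²) (log z₁) (log z₂) / (z₁ z₂)` of the primes `p`
in `(X, 2X]` have the property that every nonzero class modulo `p` contains a product `q₁ q₂` of
primes with `qᵢ ≤ zᵢ`.  With `z₁ = X`, `z₂ = X (log X)^(3 + ε)` this holds for almost all primes.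

Proof: by the large sieve for prime moduli few pairs `(p, y)` are such that no prime `q₂ ≤ z₂` is in
the class `y` modulo `p`.  If `x` is not `q₁ q₂` then this is so for the `π(z₁)` distinct classes
`x / q₁`.
-/

namespace Pool.Agent.MP_de0709_nt.TwoPrimesOld

open Finset Pool.Agent.MP_de0709_nt

open Classical in
theorem result : ∃ C : ℝ, 0 < C ∧ ∀ X z₁ z₂ : ℕ, 2 ≤ z₁ → z₁ ≤ X → 2 ≤ z₂ →
    (((Ioc X (2 * X)).filter fun p => Nat.Prime p ∧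
        ¬ ∀ x : ℕ, 1 ≤ x → x < p → ∃ q₁ q₂ : ℕ, Nat.Prime q₁ ∧ Nat.Prime q₂ ∧
          q₁ ≤ z₁ ∧ q₂ ≤ z₂ ∧ q₁ * q₂ ≡ x [MOD p]).card : ℝ)
      ≤ C * X * (z₂ + (X : ℝ) ^ 2) * (Real.log z₁ * Real.log z₂) / (z₁ * z₂) := by
  refine ⟨20480, by norm_num, ?_⟩
  intro X z₁ z₂ h1 h1X h2
  have hX1 : 1 ≤ X := by omega
  have hX0 : (1 : ℝ) ≤ X := by exact_mod_cast hX1
  obtain ⟨k₁, hk₁⟩ : ∃ k₁ : ℝ, k₁ = ((Nat.primesLE z₁).card : ℝ) := ⟨_, rfl⟩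
  obtain ⟨k₂, hk₂⟩ : ∃ k₂ : ℝ, k₂ = ((Nat.primesLE z₂).card : ℝ) := ⟨_, rfl⟩
  have hne : ∀ z : ℕ, 2 ≤ z → (Nat.primesLE z).Nonempty := fun z hz =>
    ⟨2, Nat.mem_primesLE.mpr ⟨hz, Nat.prime_two⟩⟩
  have hge1 : ∀ z : ℕ, 2 ≤ z → (1 : ℝ) ≤ ((Nat.primesLE z).card : ℝ) := fun z hz => by
    exact_mod_cast (hne z hz).card_pos
  have hk₁1 : 1 ≤ k₁ := by rw [hk₁]; exact hge1 z₁ h1
  have hk₂1 : 1 ≤ k₂ := by rw [hk₂]; exact hge1 z₂ h2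
  have hC := part_C X z₂ hX1 (by omega) (Nat.primesLE z₁) (Nat.primesLE z₂)
    (fun q hq => by
      rw [Nat.mem_primesLE] at hq
      rw [mem_Icc]
      exact ⟨hq.2.one_lt.le, by omega⟩)
    (fun q hq => by
      rw [Nat.mem_primesLE] at hq
      rw [mem_Icc]
      exact ⟨hq.2.one_lt.le, by omega⟩)
    (hne z₁ h1) (hne z₂ h2)
  rw [← hk₁, ← hk₂] at hC
  have hsub : ((Ioc X (2 * X)).filter fun p => Nat.Prime p ∧
        ¬ ∀ x : ℕ, 1 ≤ x → x < p → ∃ q₁ q₂ : ℕ, Nat.Prime q₁ ∧ Nat.Prime q₂ ∧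
          q₁ ≤ z₁ ∧ q₂ ≤ z₂ ∧ q₁ * q₂ ≡ x [MOD p])
      ⊆ (dy X).filter fun p => ¬ Cov (Nat.primesLE z₁) (Nat.primesLE z₂) p := by
    intro p hp
    rw [mem_filter] at hp
    obtain ⟨hpI, hpp, hno⟩ := hp
    rw [mem_filter]
    refine ⟨by unfold dy; rw [mem_filter]; exact ⟨hpI, hpp⟩, fun hD => hno ?_⟩
    intro x hx1 hxp
    obtain ⟨a, ha, b, hb, hab⟩ := hD x (by rw [mem_Icc]; omega)
    rw [Nat.mem_primesLE] at ha hb
    exact ⟨a, b, ha.2, hb.2, ha.1, hb.1, hab⟩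
  have hc : (((Ioc X (2 * X)).filter fun p => Nat.Prime p ∧
        ¬ ∀ x : ℕ, 1 ≤ x → x < p → ∃ q₁ q₂ : ℕ, Nat.Prime q₁ ∧ Nat.Prime q₂ ∧
          q₁ ≤ z₁ ∧ q₂ ≤ z₂ ∧ q₁ * q₂ ≡ x [MOD p]).card : ℝ)
      ≤ 320 * X * (z₂ + (X : ℝ) ^ 2) / (k₁ * k₂) :=
    le_trans (by exact_mod_cast card_le_card hsub) hC
  refine hc.trans ?_
  have hl : ∀ z : ℕ, 2 ≤ z → (0 : ℝ) < Real.log z := fun z hz =>
    Real.log_pos (by have : (2 : ℝ) ≤ z := by exact_mod_cast hz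
                     linarith)
  have hl1 := hl z₁ h1
  have hl2 := hl z₂ h2
  have hz1 : (2 : ℝ) ≤ z₁ := by exact_mod_cast h1
  have hz2 : (2 : ℝ) ≤ z₂ := by exact_mod_cast h2
  have hp1 := pi_lower z₁ h1
  have hp2 := pi_lower z₂ h2
  rw [← hk₁] at hp1
  rw [← hk₂] at hp2
  have hprod : ((z₁ : ℝ) / (8 * Real.log z₁)) * ((z₂ : ℝ) / (8 * Real.log z₂)) ≤ k₁ * k₂ :=
    mul_le_mul hp1 hp2 (by positivity) (by linarith)
  calc 320 * (X : ℝ) * (z₂ + (X : ℝ) ^ 2) / (k₁ * k₂)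
      ≤ 320 * (X : ℝ) * (z₂ + (X : ℝ) ^ 2) /
        (((z₁ : ℝ) / (8 * Real.log z₁)) * ((z₂ : ℝ) / (8 * Real.log z₂))) :=
        div_le_div_of_nonneg_left (by positivity) (by positivity) hprod
    _ = _ := by
        field_simp
        ring

end Pool.Agent.MP_de0709_nt.TwoPrimesOld
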